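import Mathlib

set_option autoImplicit false

/-! Polynomials over an ultrametric field, sup norm of the coefficients, Newton iteration for
approximately idempotent matrices, and the constancy of the trace. -/

namespace Pool.Agent.Y84.PT

open Polynomial Matrix

section Bd

variable {F : Type*} [NormedField F] [IsUltrametricDist F]

/-- all coefficients have norm at most `B` -/
def Bd (f : F[X]) (B : ℝ) : Prop := ∀ i, ‖f.coeff i‖ ≤ B

omit [IsUltrametricDist F] in
theorem Bd.mono {f : F[X]} {A B : ℝ} (h : Bd f A) (hAB : A ≤ B) : Bd f B :=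
  fun i => (h i).trans hAB

omit [IsUltrametricDist F] in
theorem bd_zero {B : ℝ} (hB : 0 ≤ B) : Bd (0 : F[X]) B := by
  intro i; simpa using hB

omit [IsUltrametricDist F] in
theorem Bd.nonneg {f : F[X]} {B : ℝ} (h : Bd f B) : 0 ≤ B := (norm_nonneg _).trans (h 0)

theorem Bd.add {f g : F[X]} {B : ℝ} (hf : Bd f B) (hg : Bd g B) : Bd (f + g) B := by
  intro i
  rw [coeff_add]
  exact (IsUltrametricDist.norm_add_le_max _ _).trans (max_le (hf i) (hg i))

omit [IsUltrametricDist F] in
theorem Bd.neg {f : F[X]} {B : ℝ} (hf : Bd f B) : Bd (-f) B := by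
  intro i; rw [coeff_neg, norm_neg]; exact hf i

theorem Bd.sub {f g : F[X]} {B : ℝ} (hf : Bd f B) (hg : Bd g B) : Bd (f - g) B := by
  rw [sub_eq_add_neg]; exact hf.add hg.neg

theorem Bd.sum {ι : Type*} {s : Finset ι} {f : ι → F[X]} {B : ℝ} (hB : 0 ≤ B)
    (h : ∀ i ∈ s, Bd (f i) B) : Bd (∑ i ∈ s, f i) B := by
  intro j
  rw [finsetSum_coeff]
  exact IsUltrametricDist.norm_sum_le_of_forall_le_of_nonneg hB (fun i hi => h i hi j)

theorem Bd.mul {f g : F[X]} {A B : ℝ} (hf : Bd f A) (hg : Bd g B) : Bd (f * g) (A * B) := by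
  intro j
  rw [coeff_mul]
  apply IsUltrametricDist.norm_sum_le_of_forall_le_of_nonneg (mul_nonneg hf.nonneg hg.nonneg)
  intro x _
  rw [norm_mul]
  exact mul_le_mul (hf _) (hg _) (norm_nonneg _) hf.nonneg

omit [IsUltrametricDist F] in
theorem bd_C {c : F} {B : ℝ} (h : ‖c‖ ≤ B) : Bd (C c) B := by
  intro j
  rw [coeff_C]
  split_ifs
  · exact h
  · rw [norm_zero]; exact (norm_nonneg _).trans h

omit [IsUltrametricDist F] in
theorem bd_one : Bd (1 : F[X]) 1 := by
  have := bd_C (F := F) (c := 1) (B := 1) (by simp)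
  simpa using this

omit [IsUltrametricDist F] in
theorem bd_X : Bd (X : F[X]) 1 := by
  intro j
  rw [coeff_X]
  split_ifs <;> simp

theorem Bd.pow {f : F[X]} {A : ℝ} (hf : Bd f A) (n : ℕ) : Bd (f ^ n) (A ^ n) := by
  induction n with
  | zero => simpa using bd_one (F := F)
  | succ n ih => rw [pow_succ, pow_succ]; exact ih.mul hf

theorem Bd.pow_one {f : F[X]} (hf : Bd f 1) (n : ℕ) : Bd (f ^ n) 1 := by
  simpa using hf.pow n

theorem Bd.derivative {f : F[X]} {B : ℝ} (hf : Bd f B) : Bd (derivative f) B := by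
  intro j
  rw [coeff_derivative, norm_mul]
  have h1 : ‖((j : F) + 1)‖ ≤ 1 := by
    have := IsUltrametricDist.norm_natCast_le_one F (j + 1)
    simpa using this
  calc ‖f.coeff (j + 1)‖ * ‖(j : F) + 1‖ ≤ B * 1 :=
        mul_le_mul (hf _) h1 (norm_nonneg _) hf.nonneg
    _ = B := mul_one B

/-- if all coefficients of positive index are small, the values differ by little -/
theorem eval_sub_le {f : F[X]} {B : ℝ} (hB : 0 ≤ B) (h : ∀ i, 1 ≤ i → ‖f.coeff i‖ ≤ B) {u v : F}
    (hu : ‖u‖ ≤ 1) (hv : ‖v‖ ≤ 1) : ‖f.eval u - f.eval v‖ ≤ B := by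
  rw [eval_eq_sum_range, eval_eq_sum_range, ← Finset.sum_sub_distrib]
  apply IsUltrametricDist.norm_sum_le_of_forall_le_of_nonneg hB
  intro i _
  rcases Nat.eq_zero_or_pos i with rfl | hi
  · simpa using hB
  · rw [← mul_sub, norm_mul]
    have h1 : ‖u ^ i - v ^ i‖ ≤ 1 := by
      rw [sub_eq_add_neg]
      refine (IsUltrametricDist.norm_add_le_max _ _).trans (max_le ?_ ?_)
      · rw [norm_pow]; exact pow_le_one₀ (norm_nonneg _) hu
      · rw [norm_neg, norm_pow]; exact pow_le_one₀ (norm_nonneg _) hv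
    calc ‖f.coeff i‖ * ‖u ^ i - v ^ i‖ ≤ B * 1 := mul_le_mul (h i hi) h1 (norm_nonneg _) hB
      _ = B := mul_one B

end Bd

section MBd

variable {F : Type*} [NormedField F] [IsUltrametricDist F]
variable {ι : Type*} [Fintype ι] [DecidableEq ι]

/-- all coefficients of all entries have norm at most `B` -/
def MBd (E : Matrix ι ι F[X]) (B : ℝ) : Prop := ∀ i j, Bd (E i j) B

omit [Fintype ι] [DecidableEq ι] [IsUltrametricDist F] in
theorem MBd.mono {E : Matrix ι ι F[X]} {A B : ℝ} (h : MBd E A) (hAB : A ≤ B) : MBd E B :=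
  fun i j => (h i j).mono hAB

omit [Fintype ι] [DecidableEq ι] in
theorem MBd.add {E G : Matrix ι ι F[X]} {B : ℝ} (hE : MBd E B) (hG : MBd G B) : MBd (E + G) B :=
  fun i j => (hE i j).add (hG i j)

omit [Fintype ι] [DecidableEq ι] in
theorem MBd.sub {E G : Matrix ι ι F[X]} {B : ℝ} (hE : MBd E B) (hG : MBd G B) : MBd (E - G) B :=
  fun i j => (hE i j).sub (hG i j)

omit [DecidableEq ι] in
theorem MBd.mul {E G : Matrix ι ι F[X]} {A B : ℝ} (hE : MBd E A) (hG : MBd G B)
    (hA : 0 ≤ A) (hB : 0 ≤ B) : MBd (E * G) (A * B) := by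
  intro i j
  rw [Matrix.mul_apply]
  exact Bd.sum (mul_nonneg hA hB) (fun k _ => (hE i k).mul (hG k j))

omit [Fintype ι] [IsUltrametricDist F] in
theorem mbd_one : MBd (1 : Matrix ι ι F[X]) 1 := by
  intro i j
  rw [Matrix.one_apply]
  split_ifs
  · exact bd_one
  · exact bd_zero zero_le_one

omit [DecidableEq ι] in
theorem MBd.trace {E : Matrix ι ι F[X]} {B : ℝ} (hE : MBd E B) (hB : 0 ≤ B) :
    Bd (Matrix.trace E) B := by
  unfold Matrix.trace
  exact Bd.sum hB (fun i _ => hE i i)

omit [Fintype ι] [DecidableEq ι] in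
theorem MBd.derivative {E : Matrix ι ι F[X]} {B : ℝ} (hE : MBd E B) :
    MBd (E.map (fun f => Polynomial.derivative f)) B :=
  fun i j => (hE i j).derivative

end MBd

section Newton

variable {A : Type*} [Ring A]

/-- the defect -/
def df (E : A) : A := E * E - E

/-- one Newton step -/
def st (E : A) : A := E - df E * (E + E - 1)

theorem df_st (E : A) : df (st E) = df E * df E * (df E + df E + df E + df E - 1 - 1 - 1) := by
  unfold df st df
  noncomm_ring

theorem st_of_idem {E : A} (h : E * E = E) : st E = E := by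
  unfold st df; rw [h]; simp

theorem map_st {B : Type*} [Ring B] (φ : A →+* B) (E : A) : φ (st E) = st (φ E) := by
  unfold st df; simp

end Newton

section Degree

variable {F : Type*} [Field F]
variable {ι : Type*} [Fintype ι] [DecidableEq ι]

/-- all entries have degree at most `d` -/
def DB (E : Matrix ι ι F[X]) (d : ℕ) : Prop := ∀ i j, (E i j).natDegree ≤ d

omit [Fintype ι] [DecidableEq ι] in
theorem DB.mono {E : Matrix ι ι F[X]} {a b : ℕ} (h : DB E a) (hab : a ≤ b) : DB E b :=
  fun i j => (h i j).trans hab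

omit [Fintype ι] [DecidableEq ι] in
theorem DB.add {E G : Matrix ι ι F[X]} {d : ℕ} (hE : DB E d) (hG : DB G d) : DB (E + G) d :=
  fun i j => (natDegree_add_le _ _).trans (max_le (hE i j) (hG i j))

omit [Fintype ι] [DecidableEq ι] in
theorem DB.sub {E G : Matrix ι ι F[X]} {d : ℕ} (hE : DB E d) (hG : DB G d) : DB (E - G) d :=
  fun i j => (natDegree_sub_le _ _).trans (max_le (hE i j) (hG i j))

omit [DecidableEq ι] in
theorem DB.mul {E G : Matrix ι ι F[X]} {a b : ℕ} (hE : DB E a) (hG : DB G b) :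
    DB (E * G) (a + b) := by
  intro i j
  rw [Matrix.mul_apply]
  apply natDegree_sum_le_of_forall_le
  intro k _
  exact natDegree_mul_le.trans (Nat.add_le_add (hE i k) (hG k j))

omit [Fintype ι] in
theorem db_one : DB (1 : Matrix ι ι F[X]) 0 := by
  intro i j
  rw [Matrix.one_apply]
  split_ifs <;> simp

theorem DB.st {E : Matrix ι ι F[X]} {d : ℕ} (hE : DB E d) : DB (st E) (3 * d) := by
  have h1 : DB (df E) (d + d) := by
    unfold df
    exact (hE.mul hE).sub (hE.mono (by omega))
  have h2 : DB (E + E - 1) d := (hE.add hE).sub (db_one.mono (by omega))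
  unfold Pool.Agent.Y84.PT.st
  exact (hE.mono (by omega)).sub ((h1.mul h2).mono (by omega))

theorem DB.iter {E : Matrix ι ι F[X]} {d : ℕ} (hE : DB E d) (N : ℕ) :
    DB (Pool.Agent.Y84.PT.st^[N] E) (3 ^ N * d) := by
  induction N with
  | zero => simpa using hE
  | succ N ih =>
    rw [Function.iterate_succ_apply', pow_succ']
    have := ih.st
    refine this.mono ?_
    rw [mul_assoc]

end Degree

section Deriv

variable {R : Type*} [CommRing R]
variable {ι : Type*} [Fintype ι] [DecidableEq ι]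

/-- entrywise derivative -/
noncomputable def md (E : Matrix ι ι R[X]) : Matrix ι ι R[X] := E.map (fun f => Polynomial.derivative f)

omit [DecidableEq ι] in
theorem md_mul (E G : Matrix ι ι R[X]) : md (E * G) = md E * G + E * md G := by
  ext1 i j
  simp only [md, Matrix.map_apply, Matrix.mul_apply, Matrix.add_apply, derivative_sum,
    derivative_mul, Finset.sum_add_distrib]

omit [Fintype ι] [DecidableEq ι] in
theorem md_sub (E G : Matrix ι ι R[X]) : md (E - G) = md E - md G := by
  ext1 i j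
  simp [md]

omit [DecidableEq ι] in
theorem derivative_trace (E : Matrix ι ι R[X]) :
    Polynomial.derivative (Matrix.trace E) = Matrix.trace (md E) := by
  simp [Matrix.trace, md]

/-- the derivative of the trace in terms of the defect -/
theorem trace_md (E : Matrix ι ι R[X]) :
    Matrix.trace (md E) = Matrix.trace (E * md (df E)) + Matrix.trace (E * md (df E))
      - (Matrix.trace (df E * md E) + Matrix.trace (df E * md E) + Matrix.trace (df E * md E)
        + Matrix.trace (df E * md E)) - Matrix.trace (md (df E)) := by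
  set D := md E with hD
  set a := df E with ha
  set b := md a with hb
  have h0 : a = E * E - E := rfl
  have h1 : D * E + E * D = D + b := by
    rw [hb, h0, md_sub, md_mul, ← hD]; abel
  have t1 : Matrix.trace (D * E) = Matrix.trace (E * D) := Matrix.trace_mul_comm _ _
  have h2 : Matrix.trace (E * D) + Matrix.trace (E * D) = Matrix.trace D + Matrix.trace b := by
    have := congrArg Matrix.trace h1
    rw [Matrix.trace_add, Matrix.trace_add, t1] at this
    exact this
  have h3 : E * D * E + E * E * D = E * D + E * b := by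
    have := congrArg (fun Z => E * Z) h1
    simp only [mul_add, ← mul_assoc] at this
    exact this
  have h4 : E * E = a + E := by rw [h0]; abel
  have h5 : Matrix.trace (E * D * E) = Matrix.trace (E * E * D) := by
    rw [Matrix.trace_mul_comm (E * D) E, mul_assoc]
  have h6 : Matrix.trace (E * E * D) = Matrix.trace (a * D) + Matrix.trace (E * D) := by
    rw [h4, add_mul, Matrix.trace_add]
  have h7 : Matrix.trace (E * E * D) + Matrix.trace (E * E * D)
      = Matrix.trace (E * D) + Matrix.trace (E * b) := by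
    have := congrArg Matrix.trace h3
    rw [Matrix.trace_add, Matrix.trace_add, h5] at this
    exact this
  rw [h6] at h7
  linear_combination (-1 : R[X]) * h2 + 2 * h7

end Deriv

section Main

variable {F : Type*} [NormedField F] [IsUltrametricDist F]
variable {ι : Type*} [Fintype ι] [DecidableEq ι]

theorem step_bd {E : Matrix ι ι F[X]} {P ε : ℝ} (hP : 1 ≤ P) (hε : ε ≤ 1)
    (hE : MBd E P) (hd : MBd (df E) ε) (hε0 : 0 ≤ ε) :
    MBd (st E) P ∧ MBd (df (st E)) (ε * ε) := by
  have hP0 : 0 ≤ P := zero_le_one.trans hP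
  constructor
  · unfold st
    refine hE.sub ?_
    have h1 : MBd (E + E - 1) P := (hE.add hE).sub (mbd_one.mono hP)
    refine (hd.mul h1 hε0 hP0).mono ?_
    calc ε * P ≤ 1 * P := mul_le_mul_of_nonneg_right hε hP0
      _ = P := one_mul P
  · rw [df_st]
    have h1 : MBd (df E + df E + df E + df E - 1 - 1 - 1) 1 := by
      have h2 : MBd (df E) 1 := hd.mono hε
      exact ((((((h2.add h2).add h2).add h2).sub mbd_one).sub mbd_one).sub mbd_one)
    have h3 := (hd.mul hd hε0 hε0).mul h1 (mul_nonneg hε0 hε0) zero_le_one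
    simpa using h3

theorem iter_bd {E : Matrix ι ι F[X]} {P ε : ℝ} (hP : 1 ≤ P) (hε : ε ≤ 1)
    (hE : MBd E P) (hd : MBd (df E) ε) (hε0 : 0 ≤ ε) (N : ℕ) :
    MBd (st^[N] E) P ∧ MBd (df (st^[N] E)) (ε ^ 2 ^ N) := by
  induction N with
  | zero => exact ⟨hE, by simpa using hd⟩
  | succ N ih =>
    rw [Function.iterate_succ_apply']
    have h := step_bd hP (pow_le_one₀ hε0 hε) ih.1 ih.2 (pow_nonneg hε0 _)
    refine ⟨h.1, ?_⟩
    have h2 := h.2
    rw [← pow_add, ← two_mul, ← pow_succ'] at h2
    exact h2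

theorem deriv_trace_bd {E : Matrix ι ι F[X]} {P ε : ℝ} (hP : 1 ≤ P)
    (hE : MBd E P) (hd : MBd (df E) ε) (hε0 : 0 ≤ ε) :
    Bd (Polynomial.derivative (Matrix.trace E)) (P * ε) := by
  have hP0 : 0 ≤ P := zero_le_one.trans hP
  have hPe : 0 ≤ P * ε := mul_nonneg hP0 hε0
  rw [derivative_trace, trace_md]
  have h1 : Bd (Matrix.trace (E * md (df E))) (P * ε) :=
    (hE.mul hd.derivative hP0 hε0).trace hPe
  have h2 : Bd (Matrix.trace (df E * md E)) (P * ε) := by
    have := (hd.mul hE.derivative hε0 hP0).trace (mul_nonneg hε0 hP0)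
    rw [mul_comm] at this
    exact this
  have h3 : Bd (Matrix.trace (md (df E))) (P * ε) := by
    refine (hd.derivative.trace hε0).mono ?_
    calc ε = 1 * ε := (one_mul ε).symm
      _ ≤ P * ε := mul_le_mul_of_nonneg_right hP hε0
  exact ((h1.add h1).sub (((h2.add h2).add h2).add h2)).sub h3

/-- constancy of the trace: if `E` is approximately idempotent in the sup norm, and exactly
idempotent at the points `u` and `v` of the unit disc, then the traces there agree -/
theorem trace_eq (hnat : ∀ n : ℕ, n ≠ 0 → (1 : ℝ) / n ≤ ‖(n : F)‖)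
    {E : Matrix ι ι F[X]} {P ε : ℝ} (hP : 1 ≤ P) (hε : ε < 1)
    (hE : MBd E P) (hd : MBd (df E) ε) (hε0 : 0 ≤ ε) {u v : F} (hu : ‖u‖ ≤ 1) (hv : ‖v‖ ≤ 1)
    (hEu : E.map (eval u) * E.map (eval u) = E.map (eval u))
    (hEv : E.map (eval v) * E.map (eval v) = E.map (eval v)) :
    Matrix.trace (E.map (eval u)) = Matrix.trace (E.map (eval v)) := by
  classical
  have hP0 : 0 ≤ P := zero_le_one.trans hP
  obtain ⟨d, hdeg⟩ : ∃ d : ℕ, DB E d := by
    refine ⟨Finset.univ.sup (fun i => Finset.univ.sup (fun j => (E i j).natDegree)), ?_⟩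
    intro i j
    exact (Finset.le_sup (f := fun j => (E i j).natDegree) (Finset.mem_univ j)).trans
      (Finset.le_sup (f := fun i => Finset.univ.sup (fun j => (E i j).natDegree))
        (Finset.mem_univ i))
  have hev : ∀ (w : F), E.map (eval w) * E.map (eval w) = E.map (eval w) → ∀ N : ℕ,
      (Matrix.trace (st^[N] E)).eval w = Matrix.trace (E.map (eval w)) := by
    intro w hw N
    have h1 : ∀ N : ℕ, ((evalRingHom w).mapMatrix (st^[N] E)) = E.map (eval w) := by
      intro N
      induction N with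
      | zero =>
        ext1 i j
        simp
      | succ N ih =>
        rw [Function.iterate_succ_apply', map_st, ih, st_of_idem hw]
    rw [← h1 N]
    simp only [Matrix.trace, Matrix.diag_apply, RingHom.mapMatrix_apply, Matrix.map_apply,
      coe_evalRingHom, eval_finsetSum]
  have key : ∀ N : ℕ, ‖Matrix.trace (E.map (eval u)) - Matrix.trace (E.map (eval v))‖ ≤
      (P * d) * (((2 : ℝ) ^ N) ^ 2 * ε ^ 2 ^ N) := by
    intro N
    rw [← hev u hEu N, ← hev v hEv N]
    obtain ⟨h1, h2⟩ := iter_bd hP hε.le hE hd hε0 N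
    have h3 := deriv_trace_bd hP h1 h2 (pow_nonneg hε0 _)
    have h4 := hdeg.iter N
    have hBn : 0 ≤ (P * d) * (((2 : ℝ) ^ N) ^ 2 * ε ^ 2 ^ N) := by positivity
    apply eval_sub_le hBn _ hu hv
    intro i hi
    rcases Nat.lt_or_ge (3 ^ N * d) i with hlt | hle
    · have : (Matrix.trace (st^[N] E)).coeff i = 0 := by
        unfold Matrix.trace
        rw [finsetSum_coeff]
        apply Finset.sum_eq_zero
        intro k _
        exact coeff_eq_zero_of_natDegree_lt ((h4 k k).trans_lt hlt)
      rw [this, norm_zero]; exact hBn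
    · obtain ⟨j, rfl⟩ : ∃ j, i = j + 1 := ⟨i - 1, by omega⟩
      have h5 := h3 j
      rw [coeff_derivative, norm_mul] at h5
      have h6 := hnat (j + 1) (by omega)
      have hj : (0 : ℝ) < ((j + 1 : ℕ) : ℝ) := by positivity
      have h7 : ‖((j : F) + 1)‖ = ‖(((j + 1 : ℕ) : F))‖ := by push_cast; rfl
      rw [h7] at h5
      have h8 : ‖(Matrix.trace (st^[N] E)).coeff (j + 1)‖ * (1 / ((j + 1 : ℕ) : ℝ)) ≤
          P * ε ^ 2 ^ N :=
        (mul_le_mul_of_nonneg_left h6 (norm_nonneg _)).trans h5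
      rw [mul_one_div, div_le_iff₀ hj] at h8
      refine h8.trans ?_
      have h9 : (((j + 1 : ℕ)) : ℝ) ≤ ((2 : ℝ) ^ N) ^ 2 * d := by
        have h10 : (((j + 1 : ℕ)) : ℝ) ≤ (((3 ^ N * d : ℕ)) : ℝ) := by exact_mod_cast hle
        refine h10.trans ?_
        push_cast
        apply mul_le_mul_of_nonneg_right _ (by positivity)
        rw [← pow_mul, mul_comm N 2, pow_mul]
        exact pow_le_pow_left₀ (by norm_num) (by norm_num) N
      calc P * ε ^ 2 ^ N * ((j + 1 : ℕ) : ℝ) ≤ P * ε ^ 2 ^ N * (((2 : ℝ) ^ N) ^ 2 * d) :=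
            mul_le_mul_of_nonneg_left h9 (by positivity)
        _ = (P * d) * (((2 : ℝ) ^ N) ^ 2 * ε ^ 2 ^ N) := by ring
  have hlim : Filter.Tendsto (fun N : ℕ => (P * d) * (((2 : ℝ) ^ N) ^ 2 * ε ^ 2 ^ N))
      Filter.atTop (nhds 0) := by
    have h1 : Filter.Tendsto (fun n : ℕ => (n : ℝ) ^ 2 * ε ^ n) Filter.atTop (nhds 0) :=
      tendsto_pow_const_mul_const_pow_of_abs_lt_one 2 (by rw [abs_of_nonneg hε0]; exact hε)
    have h2 : Filter.Tendsto (fun N : ℕ => 2 ^ N) Filter.atTop Filter.atTop :=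
      tendsto_pow_atTop_atTop_of_one_lt (by norm_num)
    have h3 := (h1.comp h2).const_mul (P * d)
    simp only [Function.comp_def, mul_zero] at h3
    refine h3.congr (fun N => ?_)
    push_cast
    rfl
  have h0 := ge_of_tendsto' hlim key
  have h1 := le_antisymm h0 (norm_nonneg _)
  exact sub_eq_zero.1 (norm_eq_zero.1 h1)

end Main

end Pool.Agent.Y84.PT
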