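import Pool.Agent.Y84.PT.A

set_option autoImplicit false

/-! The polynomial `(ζ (1 + ϖ X)) ^ n - 1` has small coefficients. -/

namespace Pool.Agent.Y84.PT

open Polynomial

variable {F : Type*} [NormedField F] [IsUltrametricDist F]

theorem norm_choose_le {p : ℕ} (hp : p.Prime) {i : ℕ} (h0 : i ≠ 0) (hi : i < p) :
    ‖((p.choose i : ℕ) : F)‖ ≤ ‖(p : F)‖ := by
  obtain ⟨c, hc⟩ := hp.dvd_choose_self h0 hi
  rw [hc, Nat.cast_mul, norm_mul]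
  calc ‖(p : F)‖ * ‖(c : F)‖ ≤ ‖(p : F)‖ * 1 :=
        mul_le_mul_of_nonneg_left (IsUltrametricDist.norm_natCast_le_one F c) (norm_nonneg _)
    _ = ‖(p : F)‖ := mul_one _

theorem bd_pow_p {p : ℕ} (hp : p.Prime) {Z : F[X]} {δ : ℝ} (hZ : Bd Z δ) (hδ : δ ≤ 1)
    (hδp : δ ^ (p - 1) ≤ ‖(p : F)‖) : Bd ((1 + Z) ^ p - 1) (‖(p : F)‖ * δ) := by
  have hδ0 : 0 ≤ δ := hZ.nonneg
  have h1 : (1 + Z) ^ p - 1 = ∑ i ∈ Finset.range p, Z ^ (i + 1) * ((p.choose (i + 1) : ℕ) : F[X]) := by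
    rw [add_comm, add_pow, Finset.sum_range_succ']
    simp
  rw [h1]
  apply Bd.sum (mul_nonneg (norm_nonneg _) hδ0)
  intro i hi
  rw [Finset.mem_range] at hi
  have hC : ((p.choose (i + 1) : ℕ) : F[X]) = C ((p.choose (i + 1) : ℕ) : F) := by simp
  rcases Nat.lt_or_ge (i + 1) p with hlt | hge
  · have h2 : Bd (Z ^ (i + 1)) δ := by
      refine (hZ.pow (i + 1)).mono ?_
      rw [pow_succ]
      calc δ ^ i * δ ≤ 1 * δ := mul_le_mul_of_nonneg_right (pow_le_one₀ hδ0 hδ) hδ0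
        _ = δ := one_mul δ
    have h3 : Bd ((p.choose (i + 1) : ℕ) : F[X]) ‖(p : F)‖ := by
      rw [hC]; exact bd_C (norm_choose_le hp (by omega) hlt)
    rw [mul_comm ‖(p : F)‖ δ]
    exact h2.mul h3
  · have hip : i + 1 = p := by omega
    rw [hip, Nat.choose_self, Nat.cast_one, mul_one]
    refine (hZ.pow p).mono ?_
    rw [← hip, pow_succ]
    have : i = p - 1 := by omega
    rw [this, show p - 1 + 1 = p from by omega]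
    exact mul_le_mul_of_nonneg_right hδp hδ0

theorem bd_pow_ppow {p : ℕ} (hp : p.Prime) {Z : F[X]} {δ : ℝ} (hZ : Bd Z δ) (hδ : δ ≤ 1)
    (hδp : δ ^ (p - 1) ≤ ‖(p : F)‖) (k : ℕ) :
    Bd ((1 + Z) ^ p ^ k - 1) (‖(p : F)‖ ^ k * δ) := by
  have hδ0 : 0 ≤ δ := hZ.nonneg
  have hp1 : ‖(p : F)‖ ≤ 1 := IsUltrametricDist.norm_natCast_le_one F p
  induction k with
  | zero => simpa using hZ
  | succ k ih =>
    have h1 : ‖(p : F)‖ ^ k * δ ≤ δ := by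
      calc ‖(p : F)‖ ^ k * δ ≤ 1 * δ :=
            mul_le_mul_of_nonneg_right (pow_le_one₀ (norm_nonneg _) hp1) hδ0
        _ = δ := one_mul δ
    have h2 := bd_pow_p hp ih (h1.trans hδ)
      ((pow_le_pow_left₀ (mul_nonneg (pow_nonneg (norm_nonneg _) _) hδ0) h1 _).trans hδp)
    have h3 : (1 + ((1 + Z) ^ p ^ k - 1)) ^ p - 1 = (1 + Z) ^ p ^ (k + 1) - 1 := by
      rw [pow_succ, pow_mul]; ring
    rw [h3] at h2
    refine h2.mono ?_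
    rw [pow_succ]
    apply le_of_eq; ring

theorem bd_pow_any {Z : F[X]} {δ : ℝ} (hZ : Bd Z δ) (hδ : δ ≤ 1) (n : ℕ) :
    Bd ((1 + Z) ^ n - 1) δ := by
  have hδ0 : 0 ≤ δ := hZ.nonneg
  induction n with
  | zero => simpa using bd_zero hδ0
  | succ n ih =>
    have h1 : (1 + Z) ^ (n + 1) - 1 = ((1 + Z) ^ n - 1) * (1 + Z) + Z := by ring
    rw [h1]
    refine Bd.add ?_ hZ
    have h2 : Bd (1 + Z) 1 := bd_one.add (hZ.mono hδ)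
    have := ih.mul h2
    rwa [mul_one] at this

theorem bd_pow_mul {p : ℕ} (hp : p.Prime) {Z : F[X]} {δ : ℝ} (hZ : Bd Z δ) (hδ : δ ≤ 1)
    (hδp : δ ^ (p - 1) ≤ ‖(p : F)‖) {k n : ℕ} (hkn : p ^ k ∣ n) :
    Bd ((1 + Z) ^ n - 1) (‖(p : F)‖ ^ k * δ) := by
  obtain ⟨c, rfl⟩ := hkn
  have hδ0 : 0 ≤ δ := hZ.nonneg
  have hp1 : ‖(p : F)‖ ≤ 1 := IsUltrametricDist.norm_natCast_le_one F p
  have h1 := bd_pow_ppow hp hZ hδ hδp k
  have h2 : ‖(p : F)‖ ^ k * δ ≤ 1 :=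
    mul_le_one₀ (pow_le_one₀ (norm_nonneg _) hp1) hδ0 hδ
  have h3 := bd_pow_any h1 h2 c
  rw [pow_mul]
  have h4 : (1 + ((1 + Z) ^ p ^ k - 1)) ^ c - 1 = ((1 + Z) ^ p ^ k) ^ c - 1 := by ring
  rw [h4] at h3
  exact h3

/-- the distance of a `p`-th root of unity from `1` -/
theorem norm_root_sub_one {p : ℕ} (hp : p.Prime) (hp1 : ‖(p : F)‖ < 1) {ω : F} (hω : ω ^ p = 1)
    (hω1 : ω ≠ 1) : ‖ω - 1‖ < 1 ∧ ‖ω - 1‖ ^ (p - 1) ≤ ‖(p : F)‖ := by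
  have hnω : ‖ω‖ = 1 := by
    have h := congrArg norm hω
    rw [norm_pow, norm_one] at h
    exact (pow_eq_one_iff_of_nonneg (norm_nonneg _) hp.ne_zero).1 h
  have hle : ‖ω - 1‖ ≤ 1 := by
    rw [sub_eq_add_neg]
    refine (IsUltrametricDist.norm_add_le_max _ _).trans (max_le hnω.le ?_)
    rw [norm_neg, norm_one]
  have hpos : 0 < ‖ω - 1‖ := norm_pos_iff.2 (sub_ne_zero.2 hω1)
  set ϖ := ω - 1 with hϖ
  have h1 : (1 + ϖ) ^ p - 1 = ∑ i ∈ Finset.range p, ϖ ^ (i + 1) * ((p.choose (i + 1) : ℕ) : F) := by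
    rw [add_comm, add_pow, Finset.sum_range_succ']
    simp
  have h2 : (1 + ϖ) ^ p - 1 = 0 := by rw [hϖ]; simp [hω]
  obtain ⟨q, hq⟩ : ∃ q, p = q + 1 := ⟨p - 1, by have := hp.pos; omega⟩
  have h3 : ϖ ^ p = - ∑ i ∈ Finset.range q, ϖ ^ (i + 1) * ((p.choose (i + 1) : ℕ) : F) := by
    rw [h2] at h1
    have h4 : (0 : F) = ∑ i ∈ Finset.range (q + 1), ϖ ^ (i + 1) * ((p.choose (i + 1) : ℕ) : F) := by
      rw [← hq]; exact h1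
    rw [Finset.sum_range_succ, ← hq, Nat.choose_self, Nat.cast_one, mul_one] at h4
    linear_combination (-1 : F) * h4
  have h4 : ‖ϖ‖ ^ p ≤ ‖ϖ‖ * ‖(p : F)‖ := by
    rw [← norm_pow, h3, norm_neg]
    apply IsUltrametricDist.norm_sum_le_of_forall_le_of_nonneg
      (mul_nonneg (norm_nonneg _) (norm_nonneg _))
    intro i hi
    rw [Finset.mem_range] at hi
    rw [norm_mul, norm_pow, pow_succ]
    apply mul_le_mul _ (norm_choose_le hp (by omega) (by omega)) (norm_nonneg _) (norm_nonneg _)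
    calc ‖ϖ‖ ^ i * ‖ϖ‖ ≤ 1 * ‖ϖ‖ :=
          mul_le_mul_of_nonneg_right (pow_le_one₀ (norm_nonneg _) hle) (norm_nonneg _)
      _ = ‖ϖ‖ := one_mul _
  have h5 : ‖ϖ‖ ^ (p - 1) ≤ ‖(p : F)‖ := by
    have h6 : ‖ϖ‖ ^ p = ‖ϖ‖ * ‖ϖ‖ ^ (p - 1) := by
      rw [← pow_succ']; congr 1; omega
    rw [h6] at h4
    exact le_of_mul_le_mul_left h4 hpos
  refine ⟨?_, h5⟩
  rcases hle.lt_or_eq with h | h
  · exact h
  · exfalso
    rw [h, one_pow] at h5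
    exact absurd hp1 (not_lt.2 h5)

/-- the polynomial `ζ (1 + ϖ X)` -/
noncomputable def xx (ζ ϖ : F) : F[X] := C ζ * (1 + C ϖ * X)

theorem xx_bd {ζ ϖ : F} (hζ : ‖ζ‖ ≤ 1) (hϖ : ‖ϖ‖ ≤ 1) : Bd (xx ζ ϖ) 1 := by
  unfold xx
  have h1 : Bd (C ϖ * X : F[X]) 1 := by
    have := (bd_C (F := F) (c := ϖ) (B := 1) hϖ).mul bd_X
    rwa [mul_one] at this
  have := (bd_C (F := F) (c := ζ) (B := 1) hζ).mul (bd_one.add h1)
  rwa [mul_one] at this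

theorem xx_pow {p : ℕ} (hp : p.Prime) {ζ ϖ : F} (hϖ : ‖ϖ‖ ≤ 1)
    (hϖp : ‖ϖ‖ ^ (p - 1) ≤ ‖(p : F)‖) {k n : ℕ} (hkn : p ^ k ∣ n) (hζ : ζ ^ n = 1) :
    Bd (xx ζ ϖ ^ n - 1) (‖(p : F)‖ ^ k * ‖ϖ‖) := by
  unfold xx
  rw [mul_pow, ← C_pow, hζ, C_1, one_mul]
  have h1 : Bd (C ϖ * X : F[X]) ‖ϖ‖ := by
    have := (bd_C (F := F) (c := ϖ) (B := ‖ϖ‖) le_rfl).mul bd_X
    rwa [mul_one] at this
  exact bd_pow_mul hp h1 hϖ hϖp hkn

omit [IsUltrametricDist F] in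
theorem xx_zero (ζ ϖ : F) : (xx ζ ϖ).eval 0 = ζ := by simp [xx]

omit [IsUltrametricDist F] in
theorem xx_one (ζ ω : F) : (xx ζ (ω - 1)).eval 1 = ζ * ω := by simp [xx]

end Pool.Agent.Y84.PT
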