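import Pool.Agent.Y84.PT.B

set_option autoImplicit false

/-! Idempotent matrices over the group ring of a finite group: the partial augmentation at an
element whose order is divisible by a high power of `p` vanishes. -/

namespace Pool.Agent.Y84.PT

open Polynomial Matrix

section Conv

variable {Q : Type*} [Group Q] [Fintype Q] {κ : Type*} [Fintype κ] [DecidableEq κ]
variable {F : Type*} [CommRing F]

/-- the family `e` is idempotent for the convolution of matrices of functions on `Q` -/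
def CI (e : κ → κ → Q → F) : Prop :=
  ∀ i k g, ∑ j, ∑ h, e i j h * e j k (h⁻¹ * g) = e i k g

variable (C₀ : Subgroup Q)

omit [Fintype Q] in
/-- every element is uniquely a representative of a left coset times an element of `C₀` -/
theorem coset_bij : Function.Bijective
    (fun w : (Q ⧸ C₀) × C₀ => (w.1.out * (w.2 : Q) : Q)) := by
  constructor
  · rintro ⟨t, y⟩ ⟨t', y'⟩ h
    simp only at h
    have h1 : t = t' := by
      have h2 : ((t.out * (y : Q) : Q) : Q ⧸ C₀) = t := by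
        rw [QuotientGroup.mk_mul_of_mem _ y.2]; exact Quotient.out_eq' t
      have h3 : ((t'.out * (y' : Q) : Q) : Q ⧸ C₀) = t' := by
        rw [QuotientGroup.mk_mul_of_mem _ y'.2]; exact Quotient.out_eq' t'
      rw [← h2, ← h3, h]
    subst h1
    have h2 := mul_left_cancel h
    rw [Prod.mk.injEq]
    exact ⟨rfl, Subtype.ext h2⟩
  · intro g
    have h1 : ((QuotientGroup.mk g : Q ⧸ C₀).out)⁻¹ * g ∈ C₀ := by
      rw [← QuotientGroup.eq]
      exact Quotient.out_eq' _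
    exact ⟨(QuotientGroup.mk g, ⟨_, h1⟩), by simp⟩

variable [Fintype C₀] [Fintype (Q ⧸ C₀)] [DecidableEq (Q ⧸ C₀)]

omit [DecidableEq (Q ⧸ C₀)] in
theorem sum_coset {B : Type*} [AddCommMonoid B] (f : Q → B) :
    ∑ t : Q ⧸ C₀, ∑ y : C₀, f (t.out * (y : Q)) = ∑ x, f x := by
  rw [← Fintype.sum_prod_type']
  exact Fintype.sum_bijective _ (coset_bij C₀) _ _ (fun _ => rfl)

variable {A : Type*} [CommRing A] (φ : F →+* A) (ν : C₀ → ℕ)

/-- the matrix of right convolution by `e` over the group ring of `C₀`, with `y ∈ C₀` replaced by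
`x ^ ν y` -/
noncomputable def MM (e : κ → κ → Q → F) (x : A) :
    Matrix ((Q ⧸ C₀) × κ) ((Q ⧸ C₀) × κ) A :=
  fun a b => ∑ y : C₀, φ (e a.2 b.2 (a.1.out * (y : Q) * b.1.out⁻¹)) * x ^ ν y

omit [DecidableEq κ] [DecidableEq (Q ⧸ C₀)] [CommRing F] [Fintype Q] [CommRing A] in
theorem sum4 {B : Type*} [AddCommMonoid B] (G : (Q ⧸ C₀) → κ → C₀ → C₀ → B) :
    ∑ t, ∑ j, ∑ y, ∑ w, G t j y w = ∑ w, ∑ j, ∑ t, ∑ y, G t j y w := by
  rw [Finset.sum_comm]
  rw [Finset.sum_comm (s := (Finset.univ : Finset C₀)) (t := (Finset.univ : Finset κ))]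
  refine Finset.sum_congr rfl (fun j _ => ?_)
  rw [Finset.sum_comm (s := (Finset.univ : Finset C₀)) (t := (Finset.univ : Finset (Q ⧸ C₀)))]
  refine Finset.sum_congr rfl (fun t _ => ?_)
  exact Finset.sum_comm

omit [DecidableEq κ] [DecidableEq (Q ⧸ C₀)] in
theorem MM_sum_aux {e : κ → κ → Q → F} (he : CI e) (x : A) (a b : (Q ⧸ C₀) × κ) :
    ∑ d : (Q ⧸ C₀) × κ, ∑ y : C₀, ∑ z : C₀,
      φ (e a.2 d.2 (a.1.out * (y : Q) * d.1.out⁻¹)) *
        φ (e d.2 b.2 (d.1.out * (z : Q) * b.1.out⁻¹)) * x ^ ν (y * z) = MM C₀ φ ν e x a b := by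
  have h1 : ∀ d : (Q ⧸ C₀) × κ, ∀ y : C₀, ∑ z : C₀,
      φ (e a.2 d.2 (a.1.out * (y : Q) * d.1.out⁻¹)) *
        φ (e d.2 b.2 (d.1.out * (z : Q) * b.1.out⁻¹)) * x ^ ν (y * z) =
      ∑ w : C₀, φ (e a.2 d.2 (a.1.out * (y : Q) * d.1.out⁻¹)) *
        φ (e d.2 b.2 (d.1.out * ((y⁻¹ * w : C₀) : Q) * b.1.out⁻¹)) * x ^ ν w := by
    intro d y
    refine Fintype.sum_equiv (Equiv.mulLeft y) _ _ (fun z => ?_)
    simp
  simp only [h1]
  unfold MM
  rw [Fintype.sum_prod_type]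
  simp only
  -- bring the sum over w outside
  have h2 : ∀ w : C₀, ∑ j : κ, ∑ t : Q ⧸ C₀, ∑ y : C₀,
      φ (e a.2 j (a.1.out * (y : Q) * t.out⁻¹)) *
        φ (e j b.2 (t.out * ((y⁻¹ * w : C₀) : Q) * b.1.out⁻¹)) =
      φ (e a.2 b.2 (a.1.out * (w : Q) * b.1.out⁻¹)) := by
    intro w
    rw [← he a.2 b.2 (a.1.out * (w : Q) * b.1.out⁻¹), map_sum]
    refine Finset.sum_congr rfl (fun j _ => ?_)
    rw [map_sum]
    have h3 : ∑ t : Q ⧸ C₀, ∑ y : C₀,
        φ (e a.2 j (a.1.out * (y : Q) * t.out⁻¹)) *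
          φ (e j b.2 (t.out * ((y⁻¹ * w : C₀) : Q) * b.1.out⁻¹)) =
        ∑ t : Q ⧸ C₀, ∑ y : C₀,
          φ (e a.2 j (a.1.out * (t.out * (y : Q))⁻¹) *
            e j b.2 ((a.1.out * (t.out * (y : Q))⁻¹)⁻¹ * (a.1.out * (w : Q) * b.1.out⁻¹))) := by
      refine Finset.sum_congr rfl (fun t _ => ?_)
      refine Fintype.sum_equiv (Equiv.inv C₀) _ _ (fun y => ?_)
      rw [map_mul]
      congr 3
      · simp [mul_assoc]
      · simp [mul_assoc]
    rw [h3, sum_coset C₀ (fun x : Q => φ (e a.2 j (a.1.out * x⁻¹) *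
      e j b.2 ((a.1.out * x⁻¹)⁻¹ * (a.1.out * (w : Q) * b.1.out⁻¹))))]
    refine Fintype.sum_equiv ((Equiv.inv Q).trans (Equiv.mulLeft a.1.out)) _ _ (fun x => ?_)
    simp
  simp only [← h2]
  simp only [Finset.sum_mul]
  exact sum4 C₀ (fun t j y w => φ (e a.2 j (a.1.out * (y : Q) * t.out⁻¹)) *
        φ (e j b.2 (t.out * ((y⁻¹ * w : C₀) : Q) * b.1.out⁻¹)) * x ^ ν w)

omit [DecidableEq κ] [DecidableEq (Q ⧸ C₀)] in
theorem MM_sq {e : κ → κ → Q → F} (he : CI e) (x : A) (a b : (Q ⧸ C₀) × κ) :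
    (MM C₀ φ ν e x * MM C₀ φ ν e x - MM C₀ φ ν e x) a b =
    ∑ d : (Q ⧸ C₀) × κ, ∑ y : C₀, ∑ z : C₀,
      φ (e a.2 d.2 (a.1.out * (y : Q) * d.1.out⁻¹)) *
        φ (e d.2 b.2 (d.1.out * (z : Q) * b.1.out⁻¹)) * (x ^ (ν y + ν z) - x ^ ν (y * z)) := by
  rw [Matrix.sub_apply, ← MM_sum_aux C₀ φ ν he x a b, Matrix.mul_apply, ← Finset.sum_sub_distrib]
  refine Finset.sum_congr rfl (fun d _ => ?_)
  unfold MM
  rw [Finset.sum_mul_sum, ← Finset.sum_sub_distrib]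
  refine Finset.sum_congr rfl (fun y _ => ?_)
  rw [← Finset.sum_sub_distrib]
  refine Finset.sum_congr rfl (fun z _ => ?_)
  rw [pow_add]
  ring

omit [Fintype Q] [Fintype κ] [DecidableEq κ] [Fintype (Q ⧸ C₀)] [DecidableEq (Q ⧸ C₀)] in
theorem MM_map {B : Type*} [CommRing B] (ψ : A →+* B) (e : κ → κ → Q → F) (x : A) :
    (MM C₀ φ ν e x).map ψ = MM C₀ (ψ.comp φ) ν e (ψ x) := by
  ext1 a b
  simp [MM]

/-- the sums of `e` over the conjugates by representatives of the cosets -/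
noncomputable def ss (e : κ → κ → Q → F) (y : C₀) : F :=
  ∑ t : Q ⧸ C₀, ∑ i : κ, e i i (t.out * (y : Q) * t.out⁻¹)

omit [DecidableEq κ] [DecidableEq (Q ⧸ C₀)] [Fintype Q] in
theorem trace_MM (e : κ → κ → Q → F) (x : A) :
    Matrix.trace (MM C₀ φ ν e x) = ∑ y : C₀, φ (ss C₀ e y) * x ^ ν y := by
  unfold Matrix.trace MM ss
  simp only [Matrix.diag_apply]
  rw [Finset.sum_comm]
  refine Finset.sum_congr rfl (fun y _ => ?_)
  rw [Fintype.sum_prod_type]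
  simp only [map_sum, Finset.sum_mul]

end Conv

section Main

variable {Q : Type*} [Group Q] [Fintype Q] {κ : Type*} [Fintype κ] [DecidableEq κ]
variable {F : Type*} [NormedField F] [IsUltrametricDist F]
variable (C₀ : Subgroup Q) [Fintype C₀] [Fintype (Q ⧸ C₀)] [DecidableEq (Q ⧸ C₀)]

/-- equality of the traces at `ζ` and `ζ ω` -/
theorem trace_roots (hnat : ∀ n : ℕ, n ≠ 0 → (1 : ℝ) / n ≤ ‖(n : F)‖)
    {p : ℕ} (hp : p.Prime) (hp1 : ‖(p : F)‖ < 1)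
    {ν : C₀ → ℕ} {n : ℕ} (hν : ∀ y z : C₀, ∃ l, ν y + ν z = ν (y * z) + n * l)
    {e : κ → κ → Q → F} (he : CI e) {P : ℝ} (hP : 1 ≤ P) (heP : ∀ i j g, ‖e i j g‖ ≤ P)
    {k : ℕ} (hk : P * P * ‖(p : F)‖ ^ k ≤ 1) (hkn : p ^ k ∣ n) (hpn : p ∣ n)
    {ζ ω : F} (hζ : ζ ^ n = 1) (hn : n ≠ 0) (hω : ω ^ p = 1) (hω1 : ω ≠ 1) :
    ∑ y : C₀, ss C₀ e y * (ζ * ω) ^ ν y = ∑ y : C₀, ss C₀ e y * ζ ^ ν y := by
  have hP0 : 0 ≤ P := zero_le_one.trans hP
  obtain ⟨hϖ1, hϖp⟩ := norm_root_sub_one hp hp1 hω hω1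
  have hζn : ‖ζ‖ ≤ 1 := by
    have h := congrArg norm hζ
    rw [norm_pow, norm_one] at h
    exact ((pow_eq_one_iff_of_nonneg (norm_nonneg _) hn).1 h).le
  set ϖ := ω - 1 with hϖ
  set x : F[X] := xx ζ ϖ with hx
  set δ : ℝ := ‖(p : F)‖ ^ k * ‖ϖ‖ with hδ
  have hδ0 : 0 ≤ δ := mul_nonneg (pow_nonneg (norm_nonneg _) _) (norm_nonneg _)
  have hδ1 : δ ≤ 1 := mul_le_one₀ (pow_le_one₀ (norm_nonneg _) hp1.le) (norm_nonneg _) hϖ1.le
  have hx1 : Bd x 1 := xx_bd hζn hϖ1.le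
  have hxn : Bd (x ^ n - 1) δ := xx_pow hp hϖ1.le hϖp hkn hζ
  have hxl : ∀ l : ℕ, Bd (x ^ (n * l) - 1) δ := by
    intro l
    have h1 := bd_pow_any hxn hδ1 l
    rw [pow_mul]
    have h2 : (1 + (x ^ n - 1)) ^ l - 1 = (x ^ n) ^ l - 1 := by ring
    rwa [h2] at h1
  set E : Matrix ((Q ⧸ C₀) × κ) ((Q ⧸ C₀) × κ) F[X] := MM C₀ (C : F →+* F[X]) ν e x with hE
  have hEP : MBd E P := by
    intro a b
    rw [hE]
    unfold MM
    apply Bd.sum hP0
    intro y _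
    have := (bd_C (F := F) (heP a.2 b.2 (a.1.out * (y : Q) * b.1.out⁻¹))).mul (hx1.pow_one (ν y))
    rwa [mul_one] at this
  have hdE : MBd (df E) ‖ϖ‖ := by
    intro a b
    have h1 : df E = E * E - E := rfl
    rw [h1, hE, MM_sq C₀ C ν he]
    apply Bd.sum (norm_nonneg _)
    intro d _
    apply Bd.sum (norm_nonneg _)
    intro y _
    apply Bd.sum (norm_nonneg _)
    intro z _
    obtain ⟨l, hl⟩ := hν y z
    have h2 : x ^ (ν y + ν z) - x ^ ν (y * z) = x ^ ν (y * z) * (x ^ (n * l) - 1) := by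
      rw [hl, pow_add]; ring
    rw [h2]
    have h3 := ((bd_C (F := F) (heP a.2 d.2 (a.1.out * (y : Q) * d.1.out⁻¹))).mul
      (bd_C (F := F) (heP d.2 b.2 (d.1.out * (z : Q) * b.1.out⁻¹)))).mul
        ((hx1.pow_one (ν (y * z))).mul (hxl l))
    refine h3.mono ?_
    rw [one_mul, hδ, ← mul_assoc]
    calc P * P * ‖(p : F)‖ ^ k * ‖ϖ‖ ≤ 1 * ‖ϖ‖ := mul_le_mul_of_nonneg_right hk (norm_nonneg _)
      _ = ‖ϖ‖ := one_mul _
  have hmap : ∀ w : F, E.map (eval w) = MM C₀ (RingHom.id F) ν e (x.eval w) := by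
    intro w
    have h1 := MM_map C₀ (C : F →+* F[X]) ν (evalRingHom w) e x
    have h2 : (evalRingHom w).comp (C : F →+* F[X]) = RingHom.id F := by
      ext; simp
    rw [h2] at h1
    exact h1
  have hidem : ∀ w : F, (x.eval w) ^ n = 1 →
      E.map (eval w) * E.map (eval w) = E.map (eval w) := by
    intro w hw
    rw [hmap]
    ext1 a b
    have h1 := MM_sq C₀ (RingHom.id F) ν he (x.eval w) a b
    rw [Matrix.sub_apply] at h1
    rw [← sub_eq_zero, h1]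
    apply Finset.sum_eq_zero
    intro d _
    apply Finset.sum_eq_zero
    intro y _
    apply Finset.sum_eq_zero
    intro z _
    obtain ⟨l, hl⟩ := hν y z
    rw [hl, pow_add, pow_mul, hw, one_pow, mul_one, sub_self, mul_zero]
  have hx0 : x.eval 0 = ζ := xx_zero ζ ϖ
  have hx1' : x.eval 1 = ζ * ω := xx_one ζ ω
  have hωn : ω ^ n = 1 := by
    obtain ⟨m, rfl⟩ := hpn
    rw [pow_mul, hω, one_pow]
  have hres := trace_eq hnat (E := E) hP hϖ1 hEP hdE (norm_nonneg _)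
    (u := 1) (v := 0) (by simp) (by simp)
    (hidem 1 (by rw [hx1', mul_pow, hζ, hωn, one_mul])) (hidem 0 (by rw [hx0, hζ]))
  rw [hmap, hmap, hx0, hx1', trace_MM, trace_MM] at hres
  simpa using hres

/-- vanishing of the coset sum at an element `c` with exponent one -/
theorem ss_zero (hnat : ∀ n : ℕ, n ≠ 0 → (1 : ℝ) / n ≤ ‖(n : F)‖)
    {p : ℕ} (hp : p.Prime) (hp1 : ‖(p : F)‖ < 1)
    {ν : C₀ → ℕ} {n : ℕ} (hν : ∀ y z : C₀, ∃ l, ν y + ν z = ν (y * z) + n * l)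
    (hνn : ∀ y, ν y < n) (hνi : Function.Injective ν)
    {e : κ → κ → Q → F} (he : CI e) {P : ℝ} (hP : 1 ≤ P) (heP : ∀ i j g, ‖e i j g‖ ≤ P)
    {k : ℕ} (hk : P * P * ‖(p : F)‖ ^ k ≤ 1) (hkn : p ^ k ∣ n) (hpn : p ∣ n)
    {ω ξ : F} (hξ : IsPrimitiveRoot ξ n) (hn : n ≠ 0) (hω : ω ^ p = 1) (hω1 : ω ≠ 1)
    {c : C₀} (hc : ν c = 1) : ss C₀ e c = 0 := by
  classical
  set f : F[X] := ∑ y : C₀, C (ss C₀ e y * (ω ^ ν y - 1)) * X ^ ν y with hf
  have hdeg : f.natDegree < n := by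
    have h1 : f.natDegree ≤ n - 1 := by
      rw [hf]
      apply natDegree_sum_le_of_forall_le
      intro y _
      refine (natDegree_C_mul_X_pow_le _ _).trans ?_
      have := hνn y
      omega
    omega
  have hev : ∀ a : Fin n, f.eval (ξ ^ (a : ℕ)) = 0 := by
    intro a
    have hz : (ξ ^ (a : ℕ)) ^ n = 1 := by
      rw [← pow_mul, mul_comm, pow_mul, hξ.pow_eq_one, one_pow]
    have h1 := trace_roots C₀ hnat hp hp1 hν he hP heP hk hkn hpn hz hn hω hω1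
    rw [hf, eval_finsetSum]
    rw [← sub_eq_zero, ← Finset.sum_sub_distrib] at h1
    rw [← h1]
    refine Finset.sum_congr rfl (fun y _ => ?_)
    simp only [eval_mul, eval_C, eval_pow, eval_X]
    rw [mul_pow]
    ring
  have hinj : Function.Injective (fun a : Fin n => ξ ^ (a : ℕ)) := by
    intro a b hab
    exact Fin.ext (hξ.pow_inj a.2 b.2 hab)
  have hf0 : f = 0 := by
    apply Polynomial.eq_zero_of_natDegree_lt_card_of_eval_eq_zero f hinj hev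
    simpa using hdeg
  have h1 : f.coeff 1 = ss C₀ e c * (ω - 1) := by
    rw [hf, finsetSum_coeff, Finset.sum_eq_single c]
    · rw [coeff_C_mul_X_pow, hc]
      simp
    · intro y _ hyc
      rw [coeff_C_mul_X_pow, if_neg]
      intro h
      exact hyc (hνi (by rw [hc]; exact h.symm))
    · intro h; exact absurd (Finset.mem_univ c) h
  rw [hf0, coeff_zero] at h1
  rcases mul_eq_zero.1 h1.symm with h | h
  · exact h
  · exact absurd (sub_eq_zero.1 h) hω1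

end Main

section Final

variable {Q : Type*} [Group Q] [Fintype Q] {κ : Type*} [Fintype κ] [DecidableEq κ]
variable {F : Type*} [NormedField F] [IsUltrametricDist F]

/-- vanishing of the sum over all conjugates -/
theorem conj_sum_zero (hnat : ∀ n : ℕ, n ≠ 0 → (1 : ℝ) / n ≤ ‖(n : F)‖)
    (hroot : ∀ n : ℕ, n ≠ 0 → ∃ ξ : F, IsPrimitiveRoot ξ n)
    {p : ℕ} (hp : p.Prime) (hp1 : ‖(p : F)‖ < 1)
    {e : κ → κ → Q → F} (he : CI e) {P : ℝ} (hP : 1 ≤ P) (heP : ∀ i j g, ‖e i j g‖ ≤ P)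
    {k : ℕ} (hk : P * P * ‖(p : F)‖ ^ k ≤ 1) (c : Q) (hkn : p ^ k ∣ orderOf c)
    (hpn : p ∣ orderOf c) :
    ∑ x : Q, ∑ i : κ, e i i (x * c * x⁻¹) = 0 := by
  classical
  set C₀ : Subgroup Q := Subgroup.zpowers c with hC
  let _ : Fintype C₀ := Fintype.ofFinite _
  let _ : Fintype (Q ⧸ C₀) := Fintype.ofFinite _
  have hfin : IsOfFinOrder c := isOfFinOrder_of_finite c
  have hn : orderOf c ≠ 0 := (orderOf_pos c).ne'
  have hn2 : 1 < orderOf c := lt_of_lt_of_le hp.one_lt (Nat.le_of_dvd (orderOf_pos c) hpn)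
  let eqv : Fin (orderOf c) ≃ C₀ := finEquivZPowers hfin
  let ν : C₀ → ℕ := fun y => (eqv.symm y : ℕ)
  have hνc : ∀ y : C₀, c ^ ν y = (y : Q) := by
    intro y
    have h1 : eqv (eqv.symm y) = y := eqv.apply_symm_apply y
    have h2 : ((eqv (eqv.symm y) : C₀) : Q) = c ^ ((eqv.symm y : Fin (orderOf c)) : ℕ) := rfl
    rw [h1] at h2
    exact h2.symm
  have hνn : ∀ y, ν y < orderOf c := fun y => (eqv.symm y).2
  have hνi : Function.Injective ν := by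
    intro y z h
    apply Subtype.ext
    rw [← hνc y, ← hνc z, h]
  have hν : ∀ y z : C₀, ∃ l, ν y + ν z = ν (y * z) + orderOf c * l := by
    intro y z
    have h1 : c ^ (ν y + ν z) = c ^ ν (y * z) := by
      rw [pow_add, hνc, hνc, hνc]; rfl
    have h2 : ν y + ν z ≡ ν (y * z) [MOD orderOf c] := pow_eq_pow_iff_modEq.1 h1
    have h3 : (ν y + ν z) % orderOf c = ν (y * z) := by
      have h4 : (ν y + ν z) % orderOf c = ν (y * z) % orderOf c := h2
      rw [h4, Nat.mod_eq_of_lt (hνn _)]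
    refine ⟨(ν y + ν z) / orderOf c, ?_⟩
    rw [← h3]
    exact (Nat.mod_add_div _ _).symm
  let c' : C₀ := ⟨c, Subgroup.mem_zpowers c⟩
  have hc1 : ν c' = 1 := by
    have h1 : c ^ ν c' = c ^ 1 := by rw [hνc, pow_one]
    have h2 := pow_eq_pow_iff_modEq.1 h1
    have h3 : ν c' % orderOf c = 1 % orderOf c := h2
    rw [Nat.mod_eq_of_lt (hνn _), Nat.mod_eq_of_lt hn2] at h3
    exact h3
  obtain ⟨ξ, hξ⟩ := hroot (orderOf c) hn
  obtain ⟨ω, hω⟩ := hroot p hp.ne_zero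
  have hz := ss_zero C₀ hnat hp hp1 hν hνn hνi he hP heP hk hkn hpn hξ hn hω.pow_eq_one
    (hω.ne_one hp.one_lt) (c := c') hc1
  rw [← sum_coset C₀ (fun x => ∑ i : κ, e i i (x * c * x⁻¹))]
  have h1 : ∀ t : Q ⧸ C₀, ∀ y : C₀,
      ∑ i : κ, e i i (t.out * (y : Q) * c * (t.out * (y : Q))⁻¹) =
      ∑ i : κ, e i i (t.out * ((c' : C₀) : Q) * t.out⁻¹) := by
    intro t y
    have h2 : (y : Q) * c = c * (y : Q) := by
      rw [← hνc y]
      exact ((Commute.refl c).pow_left _).eq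
    have h3 : t.out * (y : Q) * c * (t.out * (y : Q))⁻¹ = t.out * c * t.out⁻¹ := by
      rw [mul_assoc t.out, h2]; group
    rw [h3]
  simp only [h1]
  rw [Finset.sum_comm]
  simp only [Finset.sum_const]
  unfold ss at hz
  rw [hz, smul_zero]

end Final

end Pool.Agent.Y84.PT
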