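import Pool.Agent.Y84.PT.C

set_option autoImplicit false

/-! The trace of an idempotent matrix over the group ring of a finite group and subgroups on which
the partial augmentations vanish. -/

namespace Pool.Agent.Y84.PT

open Matrix

section

variable {Q : Type*} [Group Q] [Fintype Q] {κ : Type*} [Fintype κ] [DecidableEq κ]
variable {F : Type*} [Field F] [CharZero F]

/-- the matrix of `e` times the averaging idempotent of `P₀` -/
noncomputable def BB (P₀ : Subgroup Q) [Fintype P₀] (e : κ → κ → Q → F) :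
    Matrix (Q × κ) (Q × κ) F :=
  fun a b => (Fintype.card P₀ : F)⁻¹ * ∑ y : P₀, e a.2 b.2 (a.1 * (y : Q) * b.1⁻¹)

omit [DecidableEq κ] in
theorem BB_idem (P₀ : Subgroup Q) [Fintype P₀] {e : κ → κ → Q → F} (he : CI e) :
    BB P₀ e * BB P₀ e = BB P₀ e := by
  have hcard : (Fintype.card P₀ : F) ≠ 0 := by
    exact_mod_cast Fintype.card_ne_zero
  ext1 a b
  rw [Matrix.mul_apply]
  unfold BB
  have h1 : ∀ y z : P₀, ∑ d : Q × κ, e a.2 d.2 (a.1 * (y : Q) * d.1⁻¹) *
      e d.2 b.2 (d.1 * (z : Q) * b.1⁻¹) = e a.2 b.2 (a.1 * ((y * z : P₀) : Q) * b.1⁻¹) := by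
    intro y z
    rw [← he a.2 b.2 (a.1 * ((y * z : P₀) : Q) * b.1⁻¹), Fintype.sum_prod_type, Finset.sum_comm]
    refine Finset.sum_congr rfl (fun j _ => ?_)
    refine Fintype.sum_equiv ((Equiv.inv Q).trans (Equiv.mulLeft (a.1 * (y : Q)))) _ _
      (fun w => ?_)
    simp [mul_assoc]
  have h2 : ∀ y : P₀, ∑ z : P₀, e a.2 b.2 (a.1 * ((y * z : P₀) : Q) * b.1⁻¹) =
      ∑ w : P₀, e a.2 b.2 (a.1 * (w : Q) * b.1⁻¹) := by
    intro y
    exact Fintype.sum_equiv (Equiv.mulLeft y) _ _ (fun z => rfl)
  calc ∑ d : Q × κ, (Fintype.card P₀ : F)⁻¹ * (∑ y : P₀, e a.2 d.2 (a.1 * (y : Q) * d.1⁻¹)) *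
        ((Fintype.card P₀ : F)⁻¹ * ∑ z : P₀, e d.2 b.2 (d.1 * (z : Q) * b.1⁻¹))
      = (Fintype.card P₀ : F)⁻¹ * (Fintype.card P₀ : F)⁻¹ *
        ∑ d : Q × κ, ∑ y : P₀, ∑ z : P₀, e a.2 d.2 (a.1 * (y : Q) * d.1⁻¹) *
          e d.2 b.2 (d.1 * (z : Q) * b.1⁻¹) := by
        rw [Finset.mul_sum]
        refine Finset.sum_congr rfl (fun d _ => ?_)
        rw [← Finset.sum_mul_sum]
        ring
    _ = (Fintype.card P₀ : F)⁻¹ * (Fintype.card P₀ : F)⁻¹ *
        ∑ y : P₀, ∑ z : P₀, e a.2 b.2 (a.1 * ((y * z : P₀) : Q) * b.1⁻¹) := by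
        congr 1
        rw [Finset.sum_comm]
        refine Finset.sum_congr rfl (fun y _ => ?_)
        rw [Finset.sum_comm]
        exact Finset.sum_congr rfl (fun z _ => h1 y z)
    _ = (Fintype.card P₀ : F)⁻¹ * ∑ w : P₀, e a.2 b.2 (a.1 * (w : Q) * b.1⁻¹) := by
        simp only [h2, Finset.sum_const, Finset.card_univ, nsmul_eq_mul]
        field_simp

omit [CharZero F] in
/-- the trace of an idempotent matrix is a natural number at most the size; it is zero only for the
zero matrix -/
theorem trace_idem [CharZero F] {ι : Type*} [Fintype ι] [DecidableEq ι] (B : Matrix ι ι F)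
    (hB : B * B = B) : ∃ a : ℕ, Matrix.trace B = a ∧ a ≤ Fintype.card ι ∧ (a = 0 → B = 0) := by
  have h1 : IsIdempotentElem (Matrix.toLin' B) := by
    unfold IsIdempotentElem
    rw [Module.End.mul_eq_comp, ← Matrix.toLin'_mul, hB]
  refine ⟨Module.finrank F (LinearMap.range (Matrix.toLin' B)), ?_, ?_, ?_⟩
  · rw [← Matrix.trace_toLin'_eq]
    exact (LinearMap.IsIdempotentElem.isProj_range _ h1).trace
  · refine (Submodule.finrank_le _).trans ?_
    rw [Module.finrank_fintype_fun_eq_card]
  · intro h0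
    have h2 : LinearMap.range (Matrix.toLin' B) = ⊥ := Submodule.finrank_eq_zero.1 h0
    rw [LinearMap.range_eq_bot] at h2
    exact Matrix.toLin'.map_eq_zero_iff.1 h2

theorem tau_nat (P₀ : Subgroup Q) {e : κ → κ → Q → F} (he : CI e)
    (h0 : ∀ y ∈ P₀, y ≠ 1 → ∑ x : Q, ∑ i : κ, e i i (x * y * x⁻¹) = 0) :
    ∃ a : ℕ, (P₀.index : F) * (∑ i : κ, e i i 1) = a ∧ a ≤ P₀.index * Fintype.card κ := by
  classical
  let _ : Fintype P₀ := Fintype.ofFinite _
  have hcard : (Fintype.card P₀ : F) ≠ 0 := by
    exact_mod_cast Fintype.card_ne_zero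
  obtain ⟨a, ha, hle, -⟩ := trace_idem (BB P₀ e) (BB_idem P₀ he)
  have h1 : Matrix.trace (BB P₀ e) =
      (Fintype.card P₀ : F)⁻¹ * ((Fintype.card Q : F) * ∑ i : κ, e i i 1) := by
    unfold Matrix.trace BB
    simp only [Matrix.diag_apply]
    rw [← Finset.mul_sum]
    congr 1
    rw [Finset.sum_comm, Finset.sum_eq_single (1 : P₀)]
    · rw [Fintype.sum_prod_type]
      simp [Finset.card_univ]
    · intro y _ hy
      rw [Fintype.sum_prod_type]
      exact h0 y y.2 (fun h => hy (Subtype.ext h))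
    · intro h; exact absurd (Finset.mem_univ _) h
  have h2 : Fintype.card P₀ * P₀.index = Fintype.card Q := by
    rw [← Nat.card_eq_fintype_card, ← Nat.card_eq_fintype_card]
    exact P₀.card_mul_index
  have h3 : (P₀.index : F) * (∑ i : κ, e i i 1) = a := by
    rw [← ha, h1, ← h2]
    push_cast
    field_simp
  refine ⟨a, h3, ?_⟩
  -- the rank of `BB` is at most the rank of the averaging idempotent
  have h4 : ∃ a' : ℕ, (P₀.index : F) * ((Fintype.card κ : F) - ∑ i : κ, e i i 1) = a' := by
    set e' : κ → κ → Q → F := fun i j g => (if i = j ∧ g = 1 then 1 else 0) - e i j g with he'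
    have hci : CI e' := by
      intro i k g
      have hj : ∀ j, ∑ h, e' i j h * e' j k (h⁻¹ * g) =
          (∑ h, (if i = j ∧ h = 1 then (1 : F) else 0) * (if j = k ∧ h⁻¹ * g = 1 then 1 else 0))
          - (∑ h, (if i = j ∧ h = 1 then (1 : F) else 0) * e j k (h⁻¹ * g))
          - (∑ h, e i j h * (if j = k ∧ h⁻¹ * g = 1 then 1 else 0))
          + ∑ h, e i j h * e j k (h⁻¹ * g) := by
        intro j
        rw [← Finset.sum_sub_distrib, ← Finset.sum_sub_distrib, ← Finset.sum_add_distrib]
        refine Finset.sum_congr rfl (fun h _ => ?_)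
        rw [he']; ring
      simp only [hj]
      rw [Finset.sum_add_distrib, Finset.sum_sub_distrib, Finset.sum_sub_distrib, he i k g]
      have s1 : ∑ j, ∑ h, (if i = j ∧ h = 1 then (1 : F) else 0) *
          (if j = k ∧ h⁻¹ * g = 1 then 1 else 0) = if i = k ∧ g = 1 then 1 else 0 := by
        rw [Finset.sum_eq_single i]
        · rw [Finset.sum_eq_single 1]
          · simp
          · intro h _ hh; simp [hh]
          · intro h; exact absurd (Finset.mem_univ _) h
        · intro j _ hj
          apply Finset.sum_eq_zero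
          intro h _
          simp [Ne.symm hj]
        · intro h; exact absurd (Finset.mem_univ _) h
      have s2 : ∑ j, ∑ h, (if i = j ∧ h = 1 then (1 : F) else 0) * e j k (h⁻¹ * g) = e i k g := by
        rw [Finset.sum_eq_single i]
        · rw [Finset.sum_eq_single 1]
          · simp
          · intro h _ hh; simp [hh]
          · intro h; exact absurd (Finset.mem_univ _) h
        · intro j _ hj
          apply Finset.sum_eq_zero
          intro h _
          simp [Ne.symm hj]
        · intro h; exact absurd (Finset.mem_univ _) h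
      have s3 : ∑ j, ∑ h, e i j h * (if j = k ∧ h⁻¹ * g = 1 then (1 : F) else 0) = e i k g := by
        rw [Finset.sum_eq_single k]
        · rw [Finset.sum_eq_single g]
          · simp
          · intro h _ hh
            rw [if_neg, mul_zero]
            rintro ⟨-, h2⟩
            exact hh (inv_mul_eq_one.1 h2)
          · intro h; exact absurd (Finset.mem_univ _) h
        · intro j _ hj
          apply Finset.sum_eq_zero
          intro h _
          simp [hj]
        · intro h; exact absurd (Finset.mem_univ _) h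
      rw [s1, s2, s3, he']
      ring
    have h0' : ∀ y ∈ P₀, y ≠ 1 → ∑ x : Q, ∑ i : κ, e' i i (x * y * x⁻¹) = 0 := by
      intro y hy hy1
      have : ∀ x : Q, ∑ i : κ, e' i i (x * y * x⁻¹) = - ∑ i : κ, e i i (x * y * x⁻¹) := by
        intro x
        rw [he', ← Finset.sum_neg_distrib]
        refine Finset.sum_congr rfl (fun i _ => ?_)
        have : ¬ (x * y * x⁻¹ = 1) := by
          intro h
          apply hy1
          have := congrArg (fun z => x⁻¹ * z * x) h
          simpa [mul_assoc] using this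
        simp [this]
      simp only [this, Finset.sum_neg_distrib, h0 y hy hy1, neg_zero]
    obtain ⟨a', ha', -, -⟩ := trace_idem (BB P₀ e') (BB_idem P₀ hci)
    refine ⟨a', ?_⟩
    have h5 : Matrix.trace (BB P₀ e') =
        (Fintype.card P₀ : F)⁻¹ * ((Fintype.card Q : F) * ∑ i : κ, e' i i 1) := by
      unfold Matrix.trace BB
      simp only [Matrix.diag_apply]
      rw [← Finset.mul_sum]
      congr 1
      rw [Finset.sum_comm, Finset.sum_eq_single (1 : P₀)]
      · rw [Fintype.sum_prod_type]
        simp [Finset.card_univ]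
      · intro y _ hy
        rw [Fintype.sum_prod_type]
        exact h0' y y.2 (fun h => hy (Subtype.ext h))
      · intro h; exact absurd (Finset.mem_univ _) h
    have h6 : ∑ i : κ, e' i i 1 = (Fintype.card κ : F) - ∑ i : κ, e i i 1 := by
      rw [he']; simp [Finset.sum_sub_distrib]
    rw [← ha', h5, ← h2, h6]
    push_cast
    field_simp
  obtain ⟨a', ha'⟩ := h4
  have h5 : ((a + a' : ℕ) : F) = ((P₀.index * Fintype.card κ : ℕ) : F) := by
    push_cast
    rw [← h3, ← ha']; ring
  have h6 : a + a' = P₀.index * Fintype.card κ := by exact_mod_cast h5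
  omega

/-- zero trace implies zero -/
theorem zero_of_tau {e : κ → κ → Q → F} (he : CI e) (h0 : ∑ i : κ, e i i 1 = 0) :
    ∀ i j g, e i j g = 0 := by
  classical
  let _ : Fintype (⊥ : Subgroup Q) := Fintype.ofFinite _
  obtain ⟨a, ha, -, hz⟩ := trace_idem (BB (⊥ : Subgroup Q) e) (BB_idem _ he)
  have h1 : Matrix.trace (BB (⊥ : Subgroup Q) e) = 0 := by
    unfold Matrix.trace BB
    simp only [Matrix.diag_apply]
    rw [← Finset.mul_sum, Finset.sum_comm]
    have : ∀ y : (⊥ : Subgroup Q), ∑ d : Q × κ, e d.2 d.2 (d.1 * (y : Q) * d.1⁻¹) = 0 := by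
      intro y
      have hy : (y : Q) = 1 := Subgroup.mem_bot.1 y.2
      rw [Fintype.sum_prod_type, hy]
      simp [h0]
    simp only [this, Finset.sum_const_zero, mul_zero]
  rw [h1] at ha
  have h2 : BB (⊥ : Subgroup Q) e = 0 := hz (by exact_mod_cast ha.symm)
  intro i j g
  have h3 := congrFun (congrFun h2 (g, i)) (1, j)
  unfold BB at h3
  have h4 : Fintype.card (⊥ : Subgroup Q) = 1 := by
    rw [← Nat.card_eq_fintype_card]; exact Subgroup.card_bot
  rw [h4] at h3
  have h5 : ∀ y : (⊥ : Subgroup Q), (y : Q) = 1 := fun y => Subgroup.mem_bot.1 y.2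
  simp only [h5] at h3
  rw [Finset.sum_const, Finset.card_univ, h4] at h3
  simpa using h3

end

end Pool.Agent.Y84.PT
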