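import Pool.Agent.Y84.PT.D

set_option autoImplicit false

/-! The algebraic closure of `ℚ_p`, and specialisations of finitely many numbers. -/

namespace Pool.Agent.Y84.PT

section Padic

variable (p : ℕ) [hp : Fact p.Prime]

theorem norm_nat_eq (n : ℕ) : ‖(n : PadicAlgCl p)‖ = ‖(n : ℚ_[p])‖ := by
  rw [← map_natCast (algebraMap ℚ_[p] (PadicAlgCl p))]
  exact PadicAlgCl.norm_extends p _

theorem norm_nat {n : ℕ} (hn : n ≠ 0) :
    ‖(n : PadicAlgCl p)‖ = ((p : ℝ) ^ padicValNat p n)⁻¹ := by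
  rw [norm_nat_eq, Padic.norm_eq_zpow_neg_valuation (by exact_mod_cast hn),
    Padic.valuation_natCast, zpow_neg, zpow_natCast]

theorem norm_nat_ge (n : ℕ) (hn : n ≠ 0) : (1 : ℝ) / n ≤ ‖(n : PadicAlgCl p)‖ := by
  rw [norm_nat p hn, one_div]
  have h1 : p ^ padicValNat p n ≤ n := Nat.le_of_dvd (Nat.pos_of_ne_zero hn) pow_padicValNat_dvd
  have h2 : (0 : ℝ) < (p : ℝ) ^ padicValNat p n := by
    have : 0 < p := hp.out.pos
    positivity
  exact inv_anti₀ h2 (by exact_mod_cast h1)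

theorem norm_p_lt : ‖(p : PadicAlgCl p)‖ < 1 := by
  rw [norm_nat_eq]
  exact Padic.norm_p_lt_one

theorem norm_p_eq : ‖(p : PadicAlgCl p)‖ = (p : ℝ)⁻¹ := by
  rw [norm_nat_eq]
  exact Padic.norm_p

theorem exists_root (n : ℕ) (hn : n ≠ 0) : ∃ ξ : PadicAlgCl p, IsPrimitiveRoot ξ n := by
  have : NeZero (n : PadicAlgCl p) := ⟨by exact_mod_cast hn⟩
  have h : HasEnoughRootsOfUnity (PadicAlgCl p) n := inferInstance
  exact h.prim

/-- integral elements have norm at most one -/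
theorem norm_le_one_of_integral {x : PadicAlgCl p} (hx : IsIntegral ℤ x) : ‖x‖ ≤ 1 := by
  by_contra hlt
  push Not at hlt
  obtain ⟨f, hf, hfx⟩ := hx
  have h1 : Polynomial.eval₂ (algebraMap ℤ (PadicAlgCl p)) x f =
      ∑ i ∈ Finset.range f.natDegree, (algebraMap ℤ (PadicAlgCl p) (f.coeff i)) * x ^ i
        + x ^ f.natDegree := by
    rw [Polynomial.eval₂_eq_sum_range, Finset.sum_range_succ, hf.coeff_natDegree, map_one, one_mul]
  rw [hfx] at h1
  have h2 : x ^ f.natDegree =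
      -∑ i ∈ Finset.range f.natDegree, (algebraMap ℤ (PadicAlgCl p) (f.coeff i)) * x ^ i := by
    linear_combination (-1 : PadicAlgCl p) * h1
  have hd : f.natDegree ≠ 0 := by
    intro h0
    rw [h0] at h2
    simp at h2
  have h3 : ‖x‖ ^ f.natDegree ≤ ‖x‖ ^ (f.natDegree - 1) := by
    rw [← norm_pow, h2, norm_neg]
    apply IsUltrametricDist.norm_sum_le_of_forall_le_of_nonneg (pow_nonneg (norm_nonneg _) _)
    intro i hi
    rw [Finset.mem_range] at hi
    rw [norm_mul, norm_pow]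
    have h4 : ‖algebraMap ℤ (PadicAlgCl p) (f.coeff i)‖ ≤ 1 := by
      rw [eq_intCast]
      exact IsUltrametricDist.norm_intCast_le_one _ _
    calc ‖algebraMap ℤ (PadicAlgCl p) (f.coeff i)‖ * ‖x‖ ^ i ≤ 1 * ‖x‖ ^ (f.natDegree - 1) :=
          mul_le_mul h4 (pow_le_pow_right₀ hlt.le (by omega)) (pow_nonneg (norm_nonneg _) _)
            zero_le_one
      _ = _ := one_mul _
  have h5 : ‖x‖ ^ (f.natDegree - 1) < ‖x‖ ^ f.natDegree :=
    pow_lt_pow_right₀ hlt (by omega)
  exact absurd h3 (not_le.2 h5)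

end Padic

section Spec

/-- finitely many elements of a field of characteristic zero can be specialised to elements of any
algebraically closed field of characteristic zero -/
theorem exists_spec {K : Type*} [Field K] [CharZero K] (L : Type*) [Field L] [CharZero L]
    [IsAlgClosed L] (T : Set K) (hT : T.Finite) :
    ∃ (R : Subalgebra ℚ K), T ⊆ R ∧ Nonempty (R →+* L) := by
  classical
  set R : Subalgebra ℚ K := Algebra.adjoin ℚ T with hR
  have hfg : R.FG := ⟨hT.toFinset, by simp [hR]⟩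
  have hft : Algebra.FiniteType ℚ R := (Subalgebra.fg_iff_finiteType R).1 hfg
  obtain ⟨m, hm⟩ := Ideal.exists_maximal R
  let _ : Field (R ⧸ m) := Ideal.Quotient.field m
  have hft2 : Algebra.FiniteType ℚ (R ⧸ m) := inferInstance
  have hfin : Module.Finite ℚ (R ⧸ m) := finite_of_finite_type_of_isJacobsonRing ℚ (R ⧸ m)
  have halg : Algebra.IsAlgebraic ℚ (R ⧸ m) := Algebra.IsAlgebraic.of_finite ℚ (R ⧸ m)
  have hlift : (R ⧸ m) →ₐ[ℚ] L := IsAlgClosed.lift
  exact ⟨R, Algebra.subset_adjoin, ⟨hlift.toRingHom.comp (Ideal.Quotient.mk m)⟩⟩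

end Spec

end Pool.Agent.Y84.PT
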