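import Pool.Agent.Y84.PT.E

set_option autoImplicit false

/-! Finite groups: the partial augmentations of an idempotent matrix with bounded denominators.
Transport of idempotents along partial homomorphisms. -/

namespace Pool.Agent.Y84.PT

open Matrix MonoidAlgebra

section Finite

variable {Q : Type*} [Group Q] [Fintype Q] {κ : Type*} [Fintype κ] [DecidableEq κ]

/-- `conj_sum_zero` over the algebraic closure of `ℚ_p` -/
theorem padic_conj_sum_zero (p : ℕ) [hp : Fact p.Prime] {e : κ → κ → Q → PadicAlgCl p} (he : CI e)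
    {P : ℝ} (hP : 1 ≤ P) (heP : ∀ i j g, ‖e i j g‖ ≤ P) {k : ℕ}
    (hk : P * P * ‖(p : PadicAlgCl p)‖ ^ k ≤ 1) (c : Q) (hkn : p ^ k ∣ orderOf c)
    (hpn : p ∣ orderOf c) :
    ∑ x : Q, ∑ i : κ, e i i (x * c * x⁻¹) = 0 :=
  conj_sum_zero (norm_nat_ge p) (exists_root p) hp.out (norm_p_lt p) he hP heP hk c hkn hpn

omit [DecidableEq κ] in
/-- a family stays idempotent under a ring homomorphism -/
theorem CI.map {A B : Type*} [CommRing A] [CommRing B] (ψ : A →+* B) {e : κ → κ → Q → A}
    (he : CI e) : CI (fun i j g => ψ (e i j g)) := by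
  intro i k g
  simp only [← map_mul, ← map_sum]
  rw [he i k g]

omit [DecidableEq κ] in
theorem CI.of_injective {A B : Type*} [CommRing A] [CommRing B] (ψ : A →+* B)
    (hψ : Function.Injective ψ) {e : κ → κ → Q → A}
    (he : CI (fun i j g => ψ (e i j g))) : CI e := by
  intro i k g
  apply hψ
  rw [map_sum]
  simp only [map_sum, map_mul]
  exact he i k g

theorem exists_prime_of_pow_ne {c : Q} {N : ℕ} (hN : N ≠ 0) (hc : c ^ (N ^ 2) ≠ 1) :
    ∃ p : ℕ, p.Prime ∧ p ^ (2 * padicValNat p N) ∣ orderOf c ∧ p ∣ orderOf c := by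
  have h1 : ¬ orderOf c ∣ N ^ 2 := fun h => hc (orderOf_dvd_iff_pow_eq_one.1 h)
  have ho : orderOf c ≠ 0 := (orderOf_pos c).ne'
  have hN2 : N ^ 2 ≠ 0 := pow_ne_zero _ hN
  rw [← Nat.factorization_prime_le_iff_dvd ho hN2] at h1
  push Not at h1
  obtain ⟨p, hp, hlt⟩ := h1
  rw [Nat.factorization_pow] at hlt
  simp only [Finsupp.smul_apply, smul_eq_mul] at hlt
  rw [Nat.factorization_def N hp] at hlt
  refine ⟨p, hp, ?_, ?_⟩
  · exact (Nat.Prime.pow_dvd_iff_le_factorization hp ho).2 hlt.le
  · have := (Nat.Prime.pow_dvd_iff_le_factorization (k := 1) hp ho).2 (by omega)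
    simpa using this

/-- Swan's theorem with denominators: an idempotent matrix over the group ring of a finite group
whose coefficients become integral after multiplication by `N` has zero partial augmentation at all
elements `c` with `c ^ (N ^ 2) ≠ 1`. -/
theorem finite_aug {K : Type*} [Field K] [CharZero K] {e : κ → κ → Q → K} (he : CI e) {N : ℕ}
    (hN : N ≠ 0) (hint : ∀ i j g, IsIntegral ℤ ((N : K) * e i j g)) {c : Q}
    (hc : c ^ (N ^ 2) ≠ 1) : ∑ x : Q, ∑ i : κ, e i i (x * c * x⁻¹) = 0 := by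
  obtain ⟨p, hp, hk, hpc⟩ := exists_prime_of_pow_ne hN hc
  have : Fact p.Prime := ⟨hp⟩
  let L : IntermediateField ℚ K := algebraicClosure ℚ K
  have hLalg : Algebra.IsAlgebraic ℚ L := algebraicClosure.isAlgebraic ℚ K
  have hNK : (N : K) ≠ 0 := by exact_mod_cast hN
  have hmem : ∀ i j g, e i j g ∈ L := by
    intro i j g
    have h1 : IsAlgebraic ℚ ((N : K) * e i j g) :=
      ((hint i j g).tower_top (A := ℚ)).isAlgebraic
    have h2 : (N : K) * e i j g ∈ L := mem_algebraicClosure_iff.2 h1
    have h3 : e i j g = (N : K)⁻¹ * ((N : K) * e i j g) := by field_simp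
    rw [h3]
    exact L.mul_mem (L.inv_mem (natCast_mem L N)) h2
  let ψ : L →ₐ[ℚ] PadicAlgCl p := IsAlgClosed.lift
  have hψi : Function.Injective ψ := ψ.toRingHom.injective
  let e₀ : κ → κ → Q → L := fun i j g => ⟨e i j g, hmem i j g⟩
  have he₀ : CI e₀ := CI.of_injective (algebraMap L K) (algebraMap L K).injective he
  have he' : CI (fun i j g => ψ.toRingHom (e₀ i j g)) := he₀.map ψ.toRingHom
  set v := padicValNat p N with hv
  have hNp : ‖(N : PadicAlgCl p)‖ = ((p : ℝ) ^ v)⁻¹ := norm_nat p hN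
  have hp0 : (0 : ℝ) < p := by exact_mod_cast hp.pos
  have hP : (1 : ℝ) ≤ (p : ℝ) ^ v := one_le_pow₀ (by exact_mod_cast hp.one_lt.le)
  have hPb : ∀ i j g, ‖ψ.toRingHom (e₀ i j g)‖ ≤ (p : ℝ) ^ v := by
    intro i j g
    have h1 : IsIntegral ℤ ((N : L) * e₀ i j g) := by
      have h2 : IsIntegral ℤ (algebraMap L K ((N : L) * e₀ i j g)) := by
        rw [map_mul, map_natCast]; exact hint i j g
      exact (isIntegral_algebraMap_iff (algebraMap L K).injective).1 h2
    have h3 : IsIntegral ℤ (ψ ((N : L) * e₀ i j g)) := h1.map (ψ.restrictScalars ℤ)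
    have h4 := norm_le_one_of_integral p h3
    rw [map_mul, map_natCast, norm_mul, hNp] at h4
    have h5 : (0 : ℝ) < (p : ℝ) ^ v := by positivity
    rw [inv_mul_le_iff₀ h5, mul_one] at h4
    exact h4
  have hk2 : (p : ℝ) ^ v * (p : ℝ) ^ v * ‖(p : PadicAlgCl p)‖ ^ (2 * v) ≤ 1 := by
    rw [norm_p_eq, ← pow_add, ← two_mul, ← mul_pow, mul_inv_cancel₀ hp0.ne', one_pow]
  have hz := padic_conj_sum_zero p he' hP hPb hk2 c hk hpc
  simp only [← map_sum] at hz
  have hz2 : ∑ x : Q, ∑ i : κ, e₀ i i (x * c * x⁻¹) = 0 := by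
    apply hψi
    rw [map_zero]
    exact hz
  have hz3 := congrArg (algebraMap L K) hz2
  rw [map_zero] at hz3
  rw [← hz3]
  simp only [map_sum]
  rfl

end Finite

section Alg

variable {K : Type*} [CommRing K]

theorem coeff_mul_fin {Q : Type*} [Group Q] [Fintype Q] (x y : MonoidAlgebra K Q) (g : Q) :
    (x * y).coeff g = ∑ h : Q, x.coeff h * y.coeff (h⁻¹ * g) := by
  classical
  rw [MonoidAlgebra.coeff_mul_antidiag x y g (Finset.univ.image (fun h : Q => (h, h⁻¹ * g)))]
  · rw [Finset.sum_image]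
    intro a _ b _ hab
    exact (Prod.mk.inj hab).1
  · rintro ⟨a, b⟩
    simp only [Finset.mem_image, Finset.mem_univ, true_and, Prod.mk.injEq]
    constructor
    · rintro ⟨h, rfl, rfl⟩; simp
    · intro h; exact ⟨a, rfl, by rw [← h]; simp⟩

theorem CI_of_idem {Q : Type*} [Group Q] [Fintype Q] {κ : Type*} [Fintype κ]
    {E : Matrix κ κ (MonoidAlgebra K Q)} (hE : E * E = E) :
    CI (fun i j q => (E i j).coeff q) := by
  intro i k g
  have h1 : (E * E) i k = E i k := by rw [hE]
  rw [Matrix.mul_apply] at h1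
  have h2 := congrArg (fun z => z.coeff g) h1
  simp only [MonoidAlgebra.coeff_sum, Finsupp.finsetSum_apply] at h2
  simp only [coeff_mul_fin] at h2
  exact h2

theorem mapDomain_mul_of {G Q : Type*} [Group G] [Group Q] (f : G → Q) (x y : MonoidAlgebra K G)
    (h : ∀ a ∈ x.coeff.support, ∀ b ∈ y.coeff.support, f (a * b) = f a * f b) :
    mapDomain f (x * y) = mapDomain f x * mapDomain f y := by
  have hx : x = ∑ a ∈ x.coeff.support, single a (x.coeff a) := (sum_coeff_single x).symm
  have hy : y = ∑ b ∈ y.coeff.support, single b (y.coeff b) := (sum_coeff_single y).symm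
  have hmd : ∀ (ι : Type _) (s : Finset ι) (u : ι → MonoidAlgebra K G),
      mapDomain f (∑ i ∈ s, u i) = ∑ i ∈ s, mapDomain f (u i) := by
    intro ι s u
    classical
    induction s using Finset.induction_on with
    | empty => simp [mapDomain_zero]
    | insert a s ha ih => rw [Finset.sum_insert ha, Finset.sum_insert ha, mapDomain_add, ih]
  have h1 : x * y = ∑ a ∈ x.coeff.support, ∑ b ∈ y.coeff.support,
      single (a * b) (x.coeff a * y.coeff b) := by
    conv_lhs => rw [hx, hy]
    rw [Finset.sum_mul_sum]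
    refine Finset.sum_congr rfl (fun a _ => Finset.sum_congr rfl (fun b _ => ?_))
    rw [single_mul_single]
  have h2 : mapDomain f x = ∑ a ∈ x.coeff.support, single (f a) (x.coeff a) := by
    conv_lhs => rw [hx]
    rw [hmd]
    simp only [mapDomain_single]
  have h3 : mapDomain f y = ∑ a ∈ y.coeff.support, single (f a) (y.coeff a) := by
    conv_lhs => rw [hy]
    rw [hmd]
    simp only [mapDomain_single]
  rw [h1, hmd, h2, h3, Finset.sum_mul_sum]
  refine Finset.sum_congr rfl (fun a ha => ?_)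
  rw [hmd]
  refine Finset.sum_congr rfl (fun b hb => ?_)
  rw [mapDomain_single, single_mul_single, h a ha b hb]

theorem coeff_mapDomain_inj {G Q : Type*} [Group G] [Group Q] (f : G → Q) (x : MonoidAlgebra K G)
    {S : Set G} (hf : Set.InjOn f S) (hx : ∀ a ∈ x.coeff.support, a ∈ S) {g : G} (hg : g ∈ S) :
    (mapDomain f x).coeff (f g) = x.coeff g := by
  classical
  have h1 : (mapDomain f x).coeff (f g) = ∑ a ∈ x.coeff.support, if f a = f g then x.coeff a else 0 := by
    change (Finsupp.mapDomain f x.coeff) (f g) = _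
    rw [Finsupp.mapDomain, Finsupp.sum_apply, Finsupp.sum]
    refine Finset.sum_congr rfl (fun a _ => ?_)
    rw [Finsupp.single_apply]
  rw [h1]
  by_cases hgs : g ∈ x.coeff.support
  · rw [Finset.sum_eq_single g]
    · simp
    · intro b hb hbg
      rw [if_neg]
      intro h
      exact hbg (hf (hx b hb) hg h)
    · intro h; exact absurd hgs h
  · rw [Finset.sum_eq_zero]
    · exact (Finsupp.notMem_support_iff.1 hgs).symm
    · intro a ha
      rw [if_neg]
      intro h
      have := hf (hx a ha) hg h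
      rw [this] at ha
      exact hgs ha

theorem exists_of_coeff_mapDomain {G Q : Type*} [Group G] [Group Q] (f : G → Q)
    (x : MonoidAlgebra K G) {q : Q} (h : (mapDomain f x).coeff q ≠ 0) :
    ∃ a ∈ x.coeff.support, f a = q := by
  classical
  have h1 : q ∈ (Finsupp.mapDomain f x.coeff).support := Finsupp.mem_support_iff.2 h
  have h2 := Finsupp.mapDomain_support h1
  simpa using h2

end Alg

end Pool.Agent.Y84.PT
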