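import Pool.Agent.Y84.PT.G

set_option autoImplicit false

/-! Groups locally embeddable into finite groups. -/

namespace Pool.Agent.Y84.PT

open Matrix MonoidAlgebra

universe u v w

/-- `G` is locally embeddable into finite groups -/
def LEF (G : Type u) [Group G] : Prop :=
  ∀ W : Finset G, ∃ (Q : Type u) (_ : Group Q) (_ : Finite Q) (f : G → Q),
    Set.InjOn f W ∧ ∀ x ∈ W, ∀ y ∈ W, f (x * y) = f x * f y

/-- `G` is residually finite -/
def RF (G : Type u) [Group G] : Prop :=
  ∀ g : G, g ≠ 1 → ∃ N : Subgroup G, N.Normal ∧ N.FiniteIndex ∧ g ∉ N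

section RFLEF

theorem RF.finset {G : Type u} [Group G] (h : RF G) (W : Finset G) (hW : ∀ g ∈ W, g ≠ 1) :
    ∃ N : Subgroup G, N.Normal ∧ N.FiniteIndex ∧ ∀ g ∈ W, g ∉ N := by
  classical
  induction W using Finset.induction_on with
  | empty => exact ⟨⊤, inferInstance, inferInstance, by simp⟩
  | insert a s ha ih =>
    obtain ⟨N, h1, h2, h3⟩ := ih (fun g hg => hW g (Finset.mem_insert_of_mem hg))
    obtain ⟨M, h4, h5, h6⟩ := h a (hW a (Finset.mem_insert_self a s))
    refine ⟨N ⊓ M, inferInstance, inferInstance, ?_⟩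
    intro g hg hgN
    rcases Finset.mem_insert.1 hg with rfl | hg
    · exact h6 hgN.2
    · exact h3 g hg hgN.1

theorem lef_of_rf {G : Type u} [Group G] (h : RF G) : LEF G := by
  classical
  intro W
  obtain ⟨N, h1, h2, h3⟩ := h.finset
    ((W ×ˢ W).image (fun z => z.1⁻¹ * z.2) |>.filter (fun g => g ≠ 1))
    (fun g hg => (Finset.mem_filter.1 hg).2)
  refine ⟨G ⧸ N, inferInstance, inferInstance, fun g => (g : G ⧸ N), ?_, ?_⟩
  · intro a ha b hb hab
    by_contra hne
    have h4 : a⁻¹ * b ∈ N := QuotientGroup.eq.1 hab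
    refine h3 (a⁻¹ * b) ?_ h4
    rw [Finset.mem_filter, Finset.mem_image]
    refine ⟨⟨(a, b), Finset.mem_product.2 ⟨ha, hb⟩, rfl⟩, ?_⟩
    intro h5
    exact hne (inv_mul_eq_one.1 h5)
  · intro x _ y _
    exact QuotientGroup.mk_mul N x y

theorem lef_of_local {G : Type u} [Group G] (h : ∀ H : Subgroup G, H.FG → LEF H) : LEF G := by
  classical
  intro W
  set H : Subgroup G := Subgroup.closure (W : Set G) with hH
  have hW : ∀ g ∈ W, g ∈ H := fun g hg => Subgroup.subset_closure (by exact_mod_cast hg)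
  have hFG : H.FG := ⟨W, hH.symm⟩
  let W' : Finset H := W.attach.image (fun g => (⟨g.1, hW g.1 g.2⟩ : H))
  obtain ⟨Q, i1, i2, f, hf, hm⟩ := h H hFG W'
  have hmem : ∀ (g : G) (hg : g ∈ W), (⟨g, hW g hg⟩ : H) ∈ W' := by
    intro g hg
    rw [Finset.mem_image]
    exact ⟨⟨g, hg⟩, Finset.mem_attach _ _, rfl⟩
  refine ⟨Q, i1, i2, fun g => if hg : g ∈ H then f ⟨g, hg⟩ else 1, ?_, ?_⟩
  · intro a ha b hb hab
    have ha' : a ∈ W := by exact_mod_cast ha
    have hb' : b ∈ W := by exact_mod_cast hb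
    simp only [dif_pos (hW a ha'), dif_pos (hW b hb')] at hab
    have := hf (by exact_mod_cast hmem a ha') (by exact_mod_cast hmem b hb') hab
    exact congrArg Subtype.val this
  · intro x hx y hy
    simp only [dif_pos (hW x hx), dif_pos (hW y hy), dif_pos (H.mul_mem (hW x hx) (hW y hy))]
    exact hm _ (hmem x hx) _ (hmem y hy)

end RFLEF

section Setup

variable {G : Type u} [Group G] {K : Type v} [Field K] [CharZero K]
variable {κ : Type w} [Fintype κ] [DecidableEq κ]

/-- the union of the supports of the entries and `{1}` -/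
noncomputable def supp (E : Matrix κ κ (MonoidAlgebra K G)) : Finset G := by
  classical
  exact insert 1 (Finset.univ.biUnion (fun i => Finset.univ.biUnion
    (fun j => (E i j).coeff.support)))

omit [CharZero K] [DecidableEq κ] in
theorem mem_supp {E : Matrix κ κ (MonoidAlgebra K G)} {i j : κ} {g : G}
    (h : g ∈ (E i j).coeff.support) : g ∈ supp E := by
  classical
  unfold supp
  apply Finset.mem_insert_of_mem
  rw [Finset.mem_biUnion]
  refine ⟨i, Finset.mem_univ _, ?_⟩
  rw [Finset.mem_biUnion]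
  exact ⟨j, Finset.mem_univ _, h⟩

omit [CharZero K] [DecidableEq κ] in
theorem one_mem_supp (E : Matrix κ κ (MonoidAlgebra K G)) : (1 : G) ∈ supp E := by
  classical
  unfold supp
  exact Finset.mem_insert_self _ _

/-- a good partial homomorphism: multiplicative and injective on the support, and compatible with
the powers up to `D` of the elements of the support -/
theorem exists_good (hG : LEF G) (S : Finset G) (h1S : (1 : G) ∈ S) (D : ℕ) :
    ∃ (Q : Type u) (_ : Group Q) (_ : Finite Q) (f : G → Q),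
      Set.InjOn f S ∧ (∀ x ∈ S, ∀ y ∈ S, f (x * y) = f x * f y) ∧ f 1 = 1 ∧
      (∀ x ∈ S, ∀ i ≤ D, f (x ^ i) = f x ^ i) ∧ (∀ x ∈ S, ∀ i ≤ D, x ^ i ≠ 1 → f x ^ i ≠ 1) := by
  classical
  obtain ⟨Q, i1, i2, f, hf, hm⟩ := hG (S ∪ (S ×ˢ Finset.range (D + 1)).image (fun z => z.1 ^ z.2))
  have hSW : ∀ x ∈ S, x ∈ S ∪ (S ×ˢ Finset.range (D + 1)).image (fun z => z.1 ^ z.2) :=
    fun x hx => Finset.mem_union_left _ hx
  have hpW : ∀ x ∈ S, ∀ i ≤ D, x ^ i ∈
      S ∪ (S ×ˢ Finset.range (D + 1)).image (fun z => z.1 ^ z.2) := by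
    intro x hx i hi
    apply Finset.mem_union_right
    rw [Finset.mem_image]
    exact ⟨(x, i), Finset.mem_product.2 ⟨hx, Finset.mem_range.2 (by omega)⟩, rfl⟩
  have hf1 : f 1 = 1 := by
    have := hm 1 (hSW 1 h1S) 1 (hSW 1 h1S)
    rw [mul_one] at this
    exact (left_eq_mul.1 this)
  have hpow : ∀ x ∈ S, ∀ i ≤ D, f (x ^ i) = f x ^ i := by
    intro x hx i
    induction i with
    | zero => intro _; simpa using hf1
    | succ i ih =>
      intro hi
      rw [pow_succ, pow_succ, hm _ (hpW x hx i (by omega)) _ (hSW x hx), ih (by omega)]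
  refine ⟨Q, i1, i2, f, ?_, ?_, hf1, hpow, ?_⟩
  · exact hf.mono (by intro x hx; exact_mod_cast hSW x (by exact_mod_cast hx))
  · exact fun x hx y hy => hm x (hSW x hx) y (hSW y hy)
  · intro x hx i hi hne h
    rw [← hpow x hx i hi, ← hf1] at h
    exact hne (hf (by exact_mod_cast hpW x hx i hi) (by exact_mod_cast hSW 1 h1S) h)

omit [CharZero K] [DecidableEq κ] in
/-- the pushed forward family is idempotent -/
theorem push_CI {Q : Type u} [Group Q] [Fintype Q] {E : Matrix κ κ (MonoidAlgebra K G)}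
    (hE : E * E = E) {f : G → Q}
    (hm : ∀ x ∈ supp E, ∀ y ∈ supp E, f (x * y) = f x * f y) :
    CI (fun i j q => (mapDomain f (E i j)).coeff q) := by
  classical
  apply CI_of_idem (E := E.map (mapDomain f))
  ext1 i k
  rw [Matrix.mul_apply]
  have h1 : (E * E) i k = E i k := by rw [hE]
  rw [Matrix.mul_apply] at h1
  have hmd : ∀ (ι : Type w) (s : Finset ι) (u : ι → MonoidAlgebra K G),
      mapDomain f (∑ i ∈ s, u i) = ∑ i ∈ s, mapDomain f (u i) := by
    intro ι s u
    induction s using Finset.induction_on with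
    | empty => simp [mapDomain_zero]
    | insert a s ha ih => rw [Finset.sum_insert ha, Finset.sum_insert ha, mapDomain_add, ih]
  simp only [Matrix.map_apply]
  rw [← h1, hmd]
  refine Finset.sum_congr rfl (fun j _ => ?_)
  rw [mapDomain_mul_of f _ _ (fun a ha b hb => hm a (mem_supp ha) b (mem_supp hb))]

omit [CharZero K] [DecidableEq κ] in
theorem push_coeff {Q : Type u} [Group Q] {E : Matrix κ κ (MonoidAlgebra K G)} {f : G → Q}
    (hf : Set.InjOn f (supp E : Finset G)) {i j : κ} {g : G} (hg : g ∈ supp E) :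
    (mapDomain f (E i j)).coeff (f g) = (E i j).coeff g :=
  coeff_mapDomain_inj f (E i j) hf (fun a ha => by exact_mod_cast mem_supp ha)
    (by exact_mod_cast hg)

omit [CharZero K] [DecidableEq κ] in
/-- every coefficient of the pushed forward family is zero or a coefficient -/
theorem push_coeff_cases {Q : Type u} [Group Q] {E : Matrix κ κ (MonoidAlgebra K G)} {f : G → Q}
    (hf : Set.InjOn f (supp E : Finset G)) (i j : κ) (q : Q) :
    (mapDomain f (E i j)).coeff q = 0 ∨ ∃ g ∈ supp E, f g = q ∧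
      (mapDomain f (E i j)).coeff q = (E i j).coeff g := by
  by_cases h : (mapDomain f (E i j)).coeff q = 0
  · exact Or.inl h
  · right
    obtain ⟨a, ha, haq⟩ := exists_of_coeff_mapDomain f (E i j) h
    refine ⟨a, mem_supp ha, haq, ?_⟩
    rw [← haq]
    exact push_coeff hf (mem_supp ha)

end Setup

end Pool.Agent.Y84.PT
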