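import Pool.Agent.Y84.PT.H

set_option autoImplicit false

/-! The main theorems for groups locally embeddable into finite groups. -/

namespace Pool.Agent.Y84.PT

open Matrix MonoidAlgebra

universe u v w

theorem exists_common_denom {L : Type*} [Field L] [CharZero L] [Algebra.IsAlgebraic ℚ L]
    (s : Finset L) : ∃ N : ℕ, N ≠ 0 ∧ ∀ z ∈ s, IsIntegral ℤ ((N : L) * z) := by
  classical
  induction s using Finset.induction_on with
  | empty => exact ⟨1, one_ne_zero, by simp⟩
  | insert a s ha ih =>
    obtain ⟨N, hN, h⟩ := ih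
    have halg : IsAlgebraic ℤ a := by
      have h1 : IsAlgebraic ℚ a := Algebra.IsAlgebraic.isAlgebraic a
      exact (IsFractionRing.isAlgebraic_iff ℤ ℚ L).2 h1
    obtain ⟨y, hy, hint⟩ := halg.exists_integral_multiple
    refine ⟨N * y.natAbs, mul_ne_zero hN (by simpa using hy), ?_⟩
    have hyabs : ∀ z : L, IsIntegral ℤ ((y : L) * z) → IsIntegral ℤ (((y.natAbs : ℕ) : L) * z) := by
      intro z hz
      rcases Int.natAbs_eq y with h1 | h1
      · have : ((y.natAbs : ℕ) : L) = (y : L) := by
          conv_rhs => rw [h1]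
          simp
        rw [this]; exact hz
      · have : ((y.natAbs : ℕ) : L) = -(y : L) := by
          conv_rhs => rw [h1]
          simp
        rw [this, neg_mul]; exact hz.neg
    intro z hz
    rcases Finset.mem_insert.1 hz with rfl | hz
    · have h1 : IsIntegral ℤ (((y.natAbs : ℕ) : L) * z) := by
        apply hyabs
        rwa [zsmul_eq_mul] at hint
      have h2 : IsIntegral ℤ ((N : L)) := isIntegral_natCast _
      have h3 := h2.mul h1
      have h4 : ((N * y.natAbs : ℕ) : L) * z = (N : L) * (((y.natAbs : ℕ) : L) * z) := by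
        push_cast; ring
      rw [h4]; exact h3
    · have h1 := h z hz
      have h2 : IsIntegral ℤ (((y.natAbs : ℕ) : L)) := isIntegral_natCast _
      have h3 := h2.mul h1
      have h4 : ((N * y.natAbs : ℕ) : L) * z = ((y.natAbs : ℕ) : L) * ((N : L) * z) := by
        push_cast; ring
      rw [h4]; exact h3

section

variable {G : Type u} [Group G] {K : Type v} [Field K] [CharZero K]
variable {κ : Type w} [Fintype κ] [DecidableEq κ]

omit [CharZero K] [DecidableEq κ] [Group G] in
/-- a finite set containing all the coefficients of the entries -/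
theorem exists_coeff_finset (E : Matrix κ κ (MonoidAlgebra K G)) :
    ∃ T : Finset K, ∀ i j g, (E i j).coeff g ∈ T := by
  classical
  refine ⟨insert 0 (Finset.univ.biUnion (fun i => Finset.univ.biUnion (fun j =>
    (E i j).coeff.support.image (fun g => (E i j).coeff g)))), ?_⟩
  intro i j g
  by_cases h : (E i j).coeff g = 0
  · rw [h]; exact Finset.mem_insert_self _ _
  · apply Finset.mem_insert_of_mem
    rw [Finset.mem_biUnion]
    refine ⟨i, Finset.mem_univ _, ?_⟩
    rw [Finset.mem_biUnion]
    refine ⟨j, Finset.mem_univ _, ?_⟩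
    rw [Finset.mem_image]
    exact ⟨g, Finsupp.mem_support_iff.2 h, rfl⟩

/-- in a finite group, the sum over a set closed under conjugation on which the sums over the
conjugates vanish is zero -/
theorem sum_zero_of_conj {Q : Type*} [Group Q] [Fintype Q] {L : Type*} [Field L] [CharZero L]
    (s : Q → L) (U : Finset Q) (hU : ∀ x q, q ∈ U → x * q * x⁻¹ ∈ U)
    (h : ∀ q ∈ U, ∑ x : Q, s (x * q * x⁻¹) = 0) : ∑ q ∈ U, s q = 0 := by
  have h1 : ∑ q ∈ U, ∑ x : Q, s (x * q * x⁻¹) = 0 := Finset.sum_eq_zero h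
  rw [Finset.sum_comm] at h1
  have h2 : ∀ x : Q, ∑ q ∈ U, s (x * q * x⁻¹) = ∑ q ∈ U, s q := by
    intro x
    refine Finset.sum_bij (fun q _ => x * q * x⁻¹) (fun q hq => hU x q hq) ?_ ?_ (fun _ _ => rfl)
    · intro a _ b _ hab
      simpa using hab
    · intro b hb
      refine ⟨x⁻¹ * b * x, ?_, by group⟩
      have := hU x⁻¹ b hb
      rwa [inv_inv] at this
  simp only [h2, Finset.sum_const, nsmul_eq_mul, Finset.card_univ] at h1
  rcases mul_eq_zero.1 h1 with h3 | h3
  · exfalso
    have : Fintype.card Q ≠ 0 := Fintype.card_ne_zero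
    exact this (by exact_mod_cast h3)
  · exact h3

open Classical in
/-- the coefficients of the trace at the elements of infinite order sum up to zero -/
theorem inf_sum_zero (hG : LEF G) {E : Matrix κ κ (MonoidAlgebra K G)} (hE : E * E = E) :
    ∑ g ∈ (supp E).filter (fun g => ¬ IsOfFinOrder g), ∑ i, (E i i).coeff g = 0 := by
  by_contra hx
  set x : K := ∑ g ∈ (supp E).filter (fun g => ¬ IsOfFinOrder g), ∑ i, (E i i).coeff g with hxdef
  obtain ⟨T, hT⟩ := exists_coeff_finset E
  obtain ⟨R, hTR, ⟨ψ⟩⟩ := exists_spec (K := K) (AlgebraicClosure ℚ)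
    ((insert x⁻¹ T : Finset K) : Set K) (Finset.finite_toSet _)
  have hmem : ∀ i j g, (E i j).coeff g ∈ R := by
    intro i j g
    exact hTR (by exact_mod_cast Finset.mem_insert_of_mem (hT i j g))
  have hxinv : x⁻¹ ∈ R := hTR (by exact_mod_cast Finset.mem_insert_self _ _)
  have halg : Algebra.IsAlgebraic ℚ (AlgebraicClosure ℚ) := AlgebraicClosure.isAlgebraic ℚ
  obtain ⟨N, hN, hNint⟩ := exists_common_denom (L := AlgebraicClosure ℚ)
    (Finset.univ.biUnion (fun i : κ => Finset.univ.biUnion (fun j : κ =>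
      (supp E).image (fun g => ψ ⟨(E i j).coeff g, hmem i j g⟩))))
  have hNint' : ∀ i j, ∀ g ∈ supp E,
      IsIntegral ℤ ((N : AlgebraicClosure ℚ) * ψ ⟨(E i j).coeff g, hmem i j g⟩) := by
    intro i j g hg
    apply hNint
    rw [Finset.mem_biUnion]
    refine ⟨i, Finset.mem_univ _, ?_⟩
    rw [Finset.mem_biUnion]
    exact ⟨j, Finset.mem_univ _, Finset.mem_image.2 ⟨g, hg, rfl⟩⟩
  set M : ℕ := N ^ 2 * ∏ g ∈ (supp E).filter (fun g => IsOfFinOrder g), orderOf g with hM
  have hM0 : M ≠ 0 := by
    rw [hM]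
    refine mul_ne_zero (pow_ne_zero _ hN) (Finset.prod_ne_zero_iff.2 ?_)
    intro g hg
    exact (orderOf_pos_iff.2 (Finset.mem_filter.1 hg).2).ne'
  obtain ⟨Q, i1, i2, f, hf, hm, hf1, hpow, hne⟩ := exists_good hG (supp E) (one_mem_supp E) M
  let _ : Fintype Q := Fintype.ofFinite Q
  let e : κ → κ → Q → K := fun i j q => (mapDomain f (E i j)).coeff q
  have he : CI e := push_CI hE hm
  have hcases : ∀ i j q, e i j q = 0 ∨ ∃ g ∈ supp E, f g = q ∧ e i j q = (E i j).coeff g :=
    fun i j q => push_coeff_cases hf i j q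
  have hmemR : ∀ i j q, e i j q ∈ R := by
    intro i j q
    rcases hcases i j q with h | ⟨g, -, -, h⟩
    · rw [h]; exact R.zero_mem
    · rw [h]; exact hmem i j g
  let eR : κ → κ → Q → R := fun i j q => ⟨e i j q, hmemR i j q⟩
  have heR : CI eR := CI.of_injective (algebraMap R K) Subtype.val_injective he
  have he' : CI (fun i j q => ψ (eR i j q)) := heR.map ψ
  have hint : ∀ i j q, IsIntegral ℤ ((N : AlgebraicClosure ℚ) * ψ (eR i j q)) := by
    intro i j q
    rcases hcases i j q with h | ⟨g, hg, -, h⟩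
    · have : eR i j q = 0 := Subtype.ext h
      rw [this, map_zero, mul_zero]; exact isIntegral_zero
    · have : eR i j q = ⟨(E i j).coeff g, hmem i j g⟩ := Subtype.ext h
      rw [this]; exact hNint' i j g hg
  have hU : ∑ q ∈ Finset.univ.filter (fun q : Q => q ^ M ≠ 1), ∑ i, ψ (eR i i q) = 0 := by
    apply sum_zero_of_conj (fun q => ∑ i, ψ (eR i i q))
    · intro y q hq
      rw [Finset.mem_filter] at hq ⊢
      refine ⟨Finset.mem_univ _, ?_⟩
      rw [conj_pow]
      intro h
      apply hq.2
      have h2 : y * q ^ M * y⁻¹ = 1 := h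
      have h3 : q ^ M = y⁻¹ * (y * q ^ M * y⁻¹) * y := by group
      rw [h3, h2]; group
    · intro q hq
      rw [Finset.mem_filter] at hq
      apply finite_aug he' hN hint
      intro h
      apply hq.2
      rw [hM, pow_mul, h, one_pow]
  have hxR : x ∈ R := by
    rw [hxdef]
    exact R.sum_mem (fun g _ => R.sum_mem (fun i _ => hmem i i g))
  have hsum : ∑ q ∈ Finset.univ.filter (fun q : Q => q ^ M ≠ 1), ∑ i, e i i q = x := by
    have h1 : ((supp E).filter (fun g => ¬ IsOfFinOrder g)).image f ⊆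
        Finset.univ.filter (fun q : Q => q ^ M ≠ 1) := by
      intro q hq
      obtain ⟨g, hg, rfl⟩ := Finset.mem_image.1 hq
      rw [Finset.mem_filter] at hg
      rw [Finset.mem_filter]
      refine ⟨Finset.mem_univ _, hne g hg.1 M le_rfl ?_⟩
      intro h
      exact hg.2 (isOfFinOrder_iff_pow_eq_one.2 ⟨M, Nat.pos_of_ne_zero hM0, h⟩)
    rw [← Finset.sum_subset h1, Finset.sum_image]
    · rw [hxdef]
      refine Finset.sum_congr rfl (fun g hg => Finset.sum_congr rfl (fun i _ => ?_))
      exact push_coeff hf (Finset.mem_filter.1 hg).1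
    · intro a ha b hb hab
      exact hf (by exact_mod_cast (Finset.mem_filter.1 ha).1)
        (by exact_mod_cast (Finset.mem_filter.1 hb).1) hab
    · intro q hq hq2
      apply Finset.sum_eq_zero
      intro i _
      rcases hcases i i q with h | ⟨g, hg, hgq, -⟩
      · exact h
      · exfalso
        rw [Finset.mem_filter] at hq
        apply hq2
        rw [Finset.mem_image]
        refine ⟨g, Finset.mem_filter.2 ⟨hg, ?_⟩, hgq⟩
        intro hfin
        apply hq.2
        rw [← hgq, ← hpow g hg M le_rfl]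
        have h2 : orderOf g ∣ M := by
          rw [hM]
          exact Dvd.dvd.mul_left (Finset.dvd_prod_of_mem _ (Finset.mem_filter.2 ⟨hg, hfin⟩)) _
        rw [orderOf_dvd_iff_pow_eq_one.1 h2, hf1]
  have h0 : ψ ⟨x, hxR⟩ = 0 := by
    rw [← hU]
    simp only [← map_sum]
    congr 1
    apply Subtype.ext
    simp only [← hsum, AddSubmonoidClass.coe_finsetSum]
    rfl
  have h1 : (⟨x, hxR⟩ : R) * ⟨x⁻¹, hxinv⟩ = 1 := by
    apply Subtype.ext
    exact mul_inv_cancel₀ hx
  have h2 := congrArg ψ h1
  rw [map_mul, h0, zero_mul, map_one] at h2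
  exact zero_ne_one h2

end

end Pool.Agent.Y84.PT
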