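import Pool.Agent.Y84.PT.I

set_option autoImplicit false

/-! Denominators of the trace, and triviality of idempotents. -/

namespace Pool.Agent.Y84.PT

open Matrix MonoidAlgebra

universe u v w

variable {G : Type u} [Group G] {K : Type v} [Field K] [CharZero K]
variable {κ : Type w} [Fintype κ] [DecidableEq κ]

omit [CharZero K] [DecidableEq κ] in
theorem push_one {Q : Type u} [Group Q] {E : Matrix κ κ (MonoidAlgebra K G)} {f : G → Q}
    (hf : Set.InjOn f (supp E : Finset G)) (hf1 : f 1 = 1) :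
    ∑ i, (mapDomain f (E i i)).coeff (1 : Q) = ∑ i, (E i i).coeff (1 : G) := by
  refine Finset.sum_congr rfl (fun i _ => ?_)
  rw [← hf1]
  exact push_coeff hf (one_mem_supp E)

/-- the trace is `a / n` with natural numbers `a ≤ n * card κ`, and `E = 0` if `a = 0` -/
theorem tau_frac (hG : LEF G) {E : Matrix κ κ (MonoidAlgebra K G)} (hE : E * E = E) :
    ∃ n a : ℕ, n ≠ 0 ∧ (n : K) * ∑ i, (E i i).coeff 1 = a ∧ a ≤ n * Fintype.card κ ∧
      (a = 0 → E = 0) := by
  obtain ⟨Q, i1, i2, f, hf, hm, hf1, -, -⟩ := exists_good hG (supp E) (one_mem_supp E) 0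
  let _ : Fintype Q := Fintype.ofFinite Q
  let e : κ → κ → Q → K := fun i j q => (mapDomain f (E i j)).coeff q
  have he : CI e := push_CI hE hm
  obtain ⟨a, ha, hle⟩ := tau_nat (⊥ : Subgroup Q) he
    (fun y hy hy1 => absurd (Subgroup.mem_bot.1 hy) hy1)
  have hτ : ∑ i, e i i 1 = ∑ i, (E i i).coeff 1 := push_one hf hf1
  rw [hτ] at ha
  have hn : (⊥ : Subgroup Q).index ≠ 0 := Subgroup.FiniteIndex.index_ne_zero
  refine ⟨(⊥ : Subgroup Q).index, a, hn, ha, hle, ?_⟩
  intro h0
  rw [h0, Nat.cast_zero] at ha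
  have h1 : ∑ i, e i i 1 = 0 := by
    rw [hτ]
    rcases mul_eq_zero.1 ha with h | h
    · exact absurd (by exact_mod_cast h) hn
    · exact h
  have h2 := zero_of_tau he h1
  ext1 i j
  apply MonoidAlgebra.coeff_injective
  ext g
  by_cases hg : g ∈ (E i j).coeff.support
  · have h3 := push_coeff (i := i) (j := j) hf (mem_supp hg)
    change (E i j).coeff g = 0
    rw [← h3]
    exact h2 i j (f g)
  · rw [Finsupp.notMem_support_iff.1 hg]; simp

/-- if `G` has no element of order `p`, then some multiple `m * trace` with `m` prime to `p` is a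
natural number -/
theorem tau_prime (hG : LEF G) {E : Matrix κ κ (MonoidAlgebra K G)} (hE : E * E = E)
    {n a : ℕ} (hn : n ≠ 0) (ha : (n : K) * ∑ i, (E i i).coeff 1 = a)
    {p : ℕ} (hp : p.Prime) (hGp : ∀ g : G, orderOf g ≠ p) :
    ∃ m b : ℕ, ¬ p ∣ m ∧ m * a = b * n := by
  classical
  have : Fact p.Prime := ⟨hp⟩
  obtain ⟨T, hT⟩ := exists_coeff_finset E
  obtain ⟨R, hTR, ⟨ψ⟩⟩ := exists_spec (K := K) (PadicAlgCl p) (T : Set K) (Finset.finite_toSet _)
  have hmem : ∀ i j g, (E i j).coeff g ∈ R := by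
    intro i j g
    exact hTR (by exact_mod_cast hT i j g)
  -- a bound for the norms
  obtain ⟨P, hP1, hP⟩ : ∃ P : ℝ, 1 ≤ P ∧ ∀ i j, ∀ g ∈ supp E,
      ‖ψ ⟨(E i j).coeff g, hmem i j g⟩‖ ≤ P := by
    let Φ : κ × κ × G → ℝ := fun z => ‖ψ ⟨(E z.1 z.2.1).coeff z.2.2, hmem z.1 z.2.1 z.2.2⟩‖
    obtain ⟨B, hB⟩ := (((Finset.univ : Finset κ) ×ˢ (Finset.univ : Finset κ) ×ˢ
      (supp E)).image Φ).bddAbove
    refine ⟨max 1 B, le_max_left _ _, ?_⟩
    intro i j g hg
    refine le_trans (hB ?_) (le_max_right _ _)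
    have : Φ (i, j, g) ∈ ((Finset.univ : Finset κ) ×ˢ
      (Finset.univ : Finset κ) ×ˢ (supp E)).image Φ := by
      rw [Finset.mem_image]
      refine ⟨(i, j, g), ?_, rfl⟩
      simp [hg]
    exact_mod_cast this
  obtain ⟨k, hk⟩ : ∃ k : ℕ, P * P * ‖(p : PadicAlgCl p)‖ ^ k ≤ 1 := by
    have hPP : 0 < P * P := by positivity
    obtain ⟨k, hk⟩ := exists_pow_lt_of_lt_one (inv_pos.2 hPP) (norm_p_lt p)
    refine ⟨k, ?_⟩
    have := mul_le_mul_of_nonneg_left hk.le hPP.le
    rwa [mul_inv_cancel₀ hPP.ne'] at this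
  have hnop : ∀ g : G, g ≠ 1 → ∀ l : ℕ, g ^ p ^ l ≠ 1 := by
    intro g hg l h
    obtain ⟨s, -, hs⟩ := (Nat.dvd_prime_pow hp).1 (orderOf_dvd_of_pow_eq_one h)
    rcases Nat.eq_zero_or_pos s with rfl | hs0
    · rw [pow_zero] at hs
      exact hg (orderOf_eq_one_iff.1 hs)
    · apply hGp (g ^ p ^ (s - 1))
      have h1 : orderOf g = p ^ (s - 1) * p := by
        rw [hs, ← pow_succ]; congr 1; omega
      rw [orderOf_pow_of_dvd (pow_ne_zero _ hp.ne_zero) (Dvd.intro _ h1.symm), h1]
      exact Nat.mul_div_cancel_left _ (pow_pos hp.pos _)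
  obtain ⟨Q, i1, i2, f, hf, hm, hf1, hpow, hne⟩ :=
    exists_good hG (supp E) (one_mem_supp E) (p ^ k)
  let _ : Fintype Q := Fintype.ofFinite Q
  let e : κ → κ → Q → K := fun i j q => (mapDomain f (E i j)).coeff q
  have he : CI e := push_CI hE hm
  have hcases : ∀ i j q, e i j q = 0 ∨ ∃ g ∈ supp E, f g = q ∧ e i j q = (E i j).coeff g :=
    fun i j q => push_coeff_cases hf i j q
  have hmemR : ∀ i j q, e i j q ∈ R := by
    intro i j q
    rcases hcases i j q with h | ⟨g, -, -, h⟩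
    · rw [h]; exact R.zero_mem
    · rw [h]; exact hmem i j g
  let eR : κ → κ → Q → R := fun i j q => ⟨e i j q, hmemR i j q⟩
  have heR : CI eR := CI.of_injective (algebraMap R K) Subtype.val_injective he
  have he' : CI (fun i j q => ψ (eR i j q)) := heR.map ψ
  have hPe : ∀ i j q, ‖ψ (eR i j q)‖ ≤ P := by
    intro i j q
    rcases hcases i j q with h | ⟨g, hg, -, h⟩
    · have : eR i j q = 0 := Subtype.ext h
      rw [this, map_zero, norm_zero]; exact zero_le_one.trans hP1
    · have : eR i j q = ⟨(E i j).coeff g, hmem i j g⟩ := Subtype.ext h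
      rw [this]; exact hP i j g hg
  obtain ⟨P₀⟩ : Nonempty (Sylow p Q) := inferInstance
  have hvan : ∀ y ∈ (P₀ : Subgroup Q), y ≠ 1 →
      ∑ x : Q, ∑ i : κ, ψ (eR i i (x * y * x⁻¹)) = 0 := by
    intro y hy hy1
    obtain ⟨s, hs⟩ : ∃ s, orderOf y = p ^ s := by
      have h1 := P₀.isPGroup' ⟨y, hy⟩
      obtain ⟨l, hl⟩ := h1
      have h2 : y ^ p ^ l = 1 := by
        have := congrArg Subtype.val hl
        simpa using this
      obtain ⟨s, -, hs⟩ := (Nat.dvd_prime_pow hp).1 (orderOf_dvd_of_pow_eq_one h2)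
      exact ⟨s, hs⟩
    by_cases hz : ∀ x : Q, ∀ i : κ, eR i i (x * y * x⁻¹) = 0
    · apply Finset.sum_eq_zero
      intro x _
      apply Finset.sum_eq_zero
      intro i _
      rw [hz x i, map_zero]
    · push Not at hz
      obtain ⟨x, i, hxi⟩ := hz
      rcases hcases i i (x * y * x⁻¹) with h | ⟨g, hg, hgq, -⟩
      · exact absurd (Subtype.ext h) hxi
      · have hg1 : g ≠ 1 := by
          rintro rfl
          rw [hf1] at hgq
          apply hy1
          have : y = x⁻¹ * (x * y * x⁻¹) * x := by group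
          rw [this, ← hgq]; group
        have h2 : y ^ p ^ k ≠ 1 := by
          intro h3
          apply hne g hg (p ^ k) le_rfl (hnop g hg1 k)
          rw [hgq, conj_pow, h3]; group
        have h3 : k < s := by
          by_contra h4
          push Not at h4
          apply h2
          apply orderOf_dvd_iff_pow_eq_one.1
          rw [hs]
          exact pow_dvd_pow p h4
        exact padic_conj_sum_zero p he' hP1 hPe hk y (by rw [hs]; exact pow_dvd_pow p h3.le)
          (by rw [hs]; exact dvd_pow_self p (by omega))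
  obtain ⟨b, hb, -⟩ := tau_nat (P₀ : Subgroup Q) he' hvan
  refine ⟨(P₀ : Subgroup Q).index, b, P₀.not_dvd_index, ?_⟩
  -- compare
  have hτR : (∑ i, eR i i 1 : R) = ⟨∑ i, (E i i).coeff 1, R.sum_mem (fun i _ => hmem i i 1)⟩ := by
    apply Subtype.ext
    rw [AddSubmonoidClass.coe_finsetSum]
    exact push_one hf hf1
  have haR : (n : R) * (∑ i, eR i i 1) = (a : R) := by
    rw [hτR]
    apply Subtype.ext
    push_cast
    exact ha
  have haψ := congrArg ψ haR
  rw [map_mul, map_natCast, map_natCast, map_sum] at haψ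
  have h1 : (((P₀ : Subgroup Q).index * a : ℕ) : PadicAlgCl p) = ((b * n : ℕ) : PadicAlgCl p) := by
    push_cast
    rw [← haψ, ← hb]; ring
  exact_mod_cast h1

/-- the trace is rational, and every prime dividing its denominator is the order of an element -/
theorem tau_rat (hG : LEF G) {E : Matrix κ κ (MonoidAlgebra K G)} (hE : E * E = E) :
    ∃ r : ℚ, ∑ i, (E i i).coeff 1 = (r : K) ∧ 0 ≤ r ∧ r ≤ Fintype.card κ ∧ (r = 0 → E = 0) ∧
      ∀ p : ℕ, p.Prime → p ∣ r.den → ∃ g : G, orderOf g = p := by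
  obtain ⟨n, a, hn, ha, hle, h0⟩ := tau_frac hG hE
  have hnQ : (n : ℚ) ≠ 0 := by exact_mod_cast hn
  have hnpos : (0 : ℚ) < n := by exact_mod_cast Nat.pos_of_ne_zero hn
  have hnK : (n : K) ≠ 0 := by exact_mod_cast hn
  refine ⟨(a : ℚ) / n, ?_, by positivity, ?_, ?_, ?_⟩
  · push_cast
    rw [eq_div_iff hnK, mul_comm]
    exact ha
  · rw [div_le_iff₀ hnpos]
    have : (a : ℚ) ≤ ((n * Fintype.card κ : ℕ) : ℚ) := by exact_mod_cast hle
    push_cast at this
    linarith
  · intro h
    apply h0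
    rcases div_eq_zero_iff.1 h with h | h
    · exact_mod_cast h
    · exact absurd h hnQ
  · intro p hp hpr
    by_contra hcon
    push Not at hcon
    obtain ⟨m, b, hm, hmb⟩ := tau_prime hG hE hn ha hp hcon
    have h1 : (m : ℚ) * ((a : ℚ) / n) = b := by
      rw [mul_div_assoc', div_eq_iff hnQ]
      exact_mod_cast hmb
    apply hm
    set r : ℚ := (a : ℚ) / n with hr
    have h2 : (r.den : ℤ) ∣ (m : ℤ) := by
      have h3 : (m : ℤ) * r.num = b * r.den := by
        have h4 : r = r.num / r.den := (Rat.num_div_den r).symm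
        have hd : (r.den : ℚ) ≠ 0 := by exact_mod_cast r.den_nz
        rw [h4, mul_div_assoc', div_eq_iff hd] at h1
        exact_mod_cast h1
      have h5 : IsCoprime (r.den : ℤ) r.num := by
        rw [Int.isCoprime_iff_gcd_eq_one, Int.gcd_comm]
        exact r.reduced
      exact h5.dvd_of_dvd_mul_right (Dvd.intro_left _ h3.symm)
    have h3 : r.den ∣ m := by exact_mod_cast h2
    exact hpr.trans h3

/-- torsion-free: the trace is a natural number -/
theorem tau_int (hG : LEF G) (htf : ∀ g : G, IsOfFinOrder g → g = 1)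
    {E : Matrix κ κ (MonoidAlgebra K G)} (hE : E * E = E) :
    ∃ n : ℕ, ∑ i, (E i i).coeff 1 = (n : K) ∧ n ≤ Fintype.card κ ∧ (n = 0 → E = 0) := by
  obtain ⟨r, h1, h2, h3, h4, h5⟩ := tau_rat hG hE
  have hden : r.den = 1 := by
    by_contra hne
    obtain ⟨p, hp, hpd⟩ := Nat.exists_prime_and_dvd hne
    obtain ⟨g, hg⟩ := h5 p hp hpd
    have hfin : IsOfFinOrder g := orderOf_pos_iff.1 (by rw [hg]; exact hp.pos)
    rw [htf g hfin, orderOf_one] at hg
    exact hp.one_lt.ne hg
  have hnum : 0 ≤ r.num := Rat.num_nonneg.2 h2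
  have hr : r = ((r.num.toNat : ℕ) : ℚ) := by
    conv_lhs => rw [← Rat.num_div_den r, hden]
    have h6 : ((r.num.toNat : ℕ) : ℤ) = r.num := Int.toNat_of_nonneg hnum
    have h7 : ((r.num.toNat : ℕ) : ℚ) = (r.num : ℚ) := by exact_mod_cast h6
    rw [h7]; simp
  refine ⟨r.num.toNat, ?_, ?_, ?_⟩
  · rw [h1]; conv_lhs => rw [hr]
    simp
  · have : ((r.num.toNat : ℕ) : ℚ) ≤ (Fintype.card κ : ℚ) := by rw [← hr]; exact h3
    exact_mod_cast this
  · intro h
    apply h4
    rw [hr, h]; simp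

/-- idempotents of `K[G]` are trivial for a torsion-free group locally embeddable into finite
groups -/
theorem idem_trivial (hG : LEF G) (htf : ∀ g : G, IsOfFinOrder g → g = 1)
    (e : MonoidAlgebra K G) (he : e * e = e) : e = 0 ∨ e = 1 := by
  have key : ∀ x : MonoidAlgebra K G, x * x = x →
      ∃ n : ℕ, x.coeff 1 = (n : K) ∧ n ≤ 1 ∧ (n = 0 → x = 0) := by
    intro x hx
    have hE : (Matrix.of (fun (_ _ : Unit) => x)) * (Matrix.of (fun (_ _ : Unit) => x)) =
        Matrix.of (fun (_ _ : Unit) => x) := by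
      ext1 i j
      simp [Matrix.mul_apply, hx]
    obtain ⟨n, h1, h2, h3⟩ := tau_int hG htf hE
    refine ⟨n, by simpa using h1, by simpa using h2, ?_⟩
    intro h
    have := congrFun (congrFun (h3 h) ()) ()
    simpa using this
  obtain ⟨n, h1, h2, h3⟩ := key e he
  rcases Nat.eq_zero_or_pos n with h | h
  · exact Or.inl (h3 h)
  · right
    have hn : n = 1 := by omega
    have hx : (1 - e) * (1 - e) = 1 - e := by
      have : (1 - e) * (1 - e) = 1 - e - e + e * e := by noncomm_ring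
      rw [this, he]; abel
    obtain ⟨m, h4, h5, h6⟩ := key (1 - e) hx
    have h7 : m = 0 := by
      have h8 : (1 - e).coeff 1 = (0 : K) := by
        rw [MonoidAlgebra.coeff_sub, Finsupp.sub_apply, MonoidAlgebra.coeff_one_one, h1, hn]
        simp
      rw [h8] at h4
      exact_mod_cast h4.symm
    exact (sub_eq_zero.1 (h6 h7)).symm

end Pool.Agent.Y84.PT
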